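import Mathlib

open Finset

namespace Pool.Agent.Run7.h233.NC

/-- The von Neumann neighbourhood: `none` is the centre, `some (i, true)` is `e_i`, `some (i, false)` is
`- e_i`. -/
abbrev Nb (d : ℕ) := Option (Fin d × Bool)

/-- The vectors of the neighbourhood, with coordinates in a ring `R` (`ℤ` or `ℤ/n`). -/
def nb {R : Type} [Ring R] {d : ℕ} : Nb d → (Fin d → R)
  | none => 0
  | some (i, true) => Pi.single i 1
  | some (i, false) => Pi.single i (-1)

/-- One step of the cellular automaton with local rule `f`. -/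
def step {R : Type} [Ring R] {d : ℕ} (f : (Nb d → Fin 3) → Fin 3) (x : (Fin d → R) → Fin 3) :
    (Fin d → R) → Fin 3 := fun v => f (fun u => x (v + nb u))

/-- The sum of the states over one period is preserved, for all spatially periodic configurations
(configurations on the torus `(ℤ/n)^d`). -/
def NumberConserving {d : ℕ} (f : (Nb d → Fin 3) → Fin 3) : Prop :=
  ∀ (n : ℕ) [NeZero n] (x : (Fin d → ZMod n) → Fin 3),
    ∑ v, ((step f x v : Fin 3) : ℕ) = ∑ v, ((x v : Fin 3) : ℕ)

/-- The global map on the configurations `ℤ^d → {0, 1, 2}` is a bijection. -/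
def Reversible {d : ℕ} (f : (Nb d → Fin 3) → Fin 3) : Prop :=
  Function.Bijective (step (R := ℤ) f)

/-- The identity or a shift by a unit vector. -/
def IsTrivial {d : ℕ} (f : (Nb d → Fin 3) → Fin 3) : Prop :=
  ∃ u : Nb d, ∀ (x : (Fin d → ℤ) → Fin 3) (v : Fin d → ℤ), step f x v = x (v + nb u)

/-- The opposite cell. -/
def neg {d : ℕ} : Nb d → Nb d
  | none => none
  | some (i, s) => some (i, !s)

/-- Values of the local rule as integers. -/
def fz {d : ℕ} (f : (Nb d → Fin 3) → Fin 3) (q : Nb d → Fin 3) : ℤ := (((f q : Fin 3) : ℕ) : ℤ)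

/-- State `a` in the cell `c`, `0` elsewhere. -/
def pt {d : ℕ} (c : Nb d) (a : Fin 3) : Nb d → Fin 3 := fun u => if u = c then a else 0

/-- State `a` in the cell `c`, `b` in the cell `c'`, `0` elsewhere. -/
def pr {d : ℕ} (c c' : Nb d) (a b : Fin 3) : Nb d → Fin 3 :=
  fun u => if u = c then a else if u = c' then b else 0

/-- The interaction of two cells. -/
def psi {d : ℕ} (f : (Nb d → Fin 3) → Fin 3) (c c' : Nb d) (a b : Fin 3) : ℤ :=
  fz f (pr c c' a b) - fz f (pt c a) - fz f (pt c' b)

/-- The neighbourhood seen by a cell in a configuration which depends only on `ε·v`: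
left neighbour `a`, centre `b`, right neighbour `c`. -/
def qe {d : ℕ} (ε : Fin d → ℤ) (a b c : Fin 3) : Nb d → Fin 3
  | none => b
  | some (i, true) => if ε i = 1 then c else if ε i = -1 then a else b
  | some (i, false) => if ε i = 1 then a else if ε i = -1 then c else b

/-- The three projections. -/
def IsProj (g : Fin 3 → Fin 3 → Fin 3 → Fin 3) : Prop :=
  (∀ a b c, g a b c = a) ∨ (∀ a b c, g a b c = b) ∨ (∀ a b c, g a b c = c)

end Pool.Agent.Run7.h233.NC
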