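import Mathlib
import Pool.Agent.Run7.h233.NC.Defs

set_option maxRecDepth 100000

namespace Pool.Agent.Run7.h233.NC

open Finset

/-- Table of the values `g 0 a b` (index `3 a + b`). -/
def Q1_T (x1 x2 x3 x4 x5 x6 x7 x8 : ℕ) (i : ℕ) : ℕ :=
  cond (Nat.beq i 0) 0 (cond (Nat.beq i 1) x1 (cond (Nat.beq i 2) x2 (cond (Nat.beq i 3) x3
    (cond (Nat.beq i 4) x4 (cond (Nat.beq i 5) x5 (cond (Nat.beq i 6) x6
      (cond (Nat.beq i 7) x7 x8)))))))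

/-- The values `g a 0 0`. -/
def Q1_U (T : ℕ → ℕ) (a : ℕ) : ℕ := cond (Nat.beq a 0) 0 (a - T (3 * a) - T a)

/-- The values `g a b 0`. -/
def Q1_V (T : ℕ → ℕ) (a b : ℕ) : ℕ := cond (Nat.beq a 0) (T (3 * b)) (a + b - T (3 * a + b) - Q1_U T b - T a)

/-- All values. -/
def Q1_R (T : ℕ → ℕ) (a b c : ℕ) : ℕ :=
  cond (Nat.beq a 0) (T (3 * b + c)) (a + b + c - T (3 * a + b) - Q1_V T b c - Q1_U T c - T a)

/-- The linear conditions. -/
def Q1_E (F : ℕ → ℕ → ℕ → ℕ) (a b c : ℕ) : Bool :=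
  and (Nat.ble (F a b c) 2) (Nat.beq (F 0 a b + F a b c + F b c 0 + F c 0 0 + F 0 0 a) (a + b + c))

/-- Loop over the three states. -/
def Q1_all (p : ℕ → Bool) : Bool := and (p 0) (and (p 1) (p 2))

/-- Collision of two words of length four. -/
def Q1_C4 (F : ℕ → ℕ → ℕ → ℕ) (a b c d a' b' c' d' : ℕ) : Bool :=
  and (Nat.beq (F d a b) (F d' a' b')) (and (Nat.beq (F a b c) (F a' b' c'))
    (and (Nat.beq (F b c d) (F b' c' d')) (Nat.beq (F c d a) (F c' d' a'))))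

/-- Collision of two words of length three. -/
def Q1_C3 (F : ℕ → ℕ → ℕ → ℕ) (a b c a' b' c' : ℕ) : Bool :=
  and (Nat.beq (F c a b) (F c' a' b')) (and (Nat.beq (F a b c) (F a' b' c'))
    (Nat.beq (F b c a) (F b' c' a')))

/-- The statement checked for all tables. -/
def Q1_P (F : ℕ → ℕ → ℕ → ℕ) : Bool :=
  or (not (Q1_all fun c => Q1_all fun b => Q1_all fun a => Q1_E F a b c))
  (or (Q1_C4 F 0 2 0 2 1 1 1 1)
  (or (Q1_C4 F 0 2 2 2 2 2 0 2)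
  (or (Q1_C4 F 0 0 2 2 2 2 0 0)
  (or (Q1_C4 F 0 0 0 2 0 2 0 0)
  (or (Q1_C4 F 1 1 2 2 2 2 1 1)
  (or (Q1_C3 F 0 1 2 1 0 2)
  (or (Q1_C4 F 0 0 2 2 0 1 1 2)
  (or (Q1_C4 F 0 0 2 2 1 0 2 1)
  (or (Q1_all fun a => Q1_all fun b => Q1_all fun c => Nat.beq (F a b c) a)
  (or (Q1_all fun a => Q1_all fun b => Q1_all fun c => Nat.beq (F a b c) b)
  (Q1_all fun a => Q1_all fun b => Q1_all fun c => Nat.beq (F a b c) c)))))))))))

theorem Q1_key : ∀ x1 x2 x3 x4 x5 x6 x7 x8 : Fin 3,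
    Q1_P (Q1_R (Q1_T x1.val x2.val x3.val x4.val x5.val x6.val x7.val x8.val)) = true := by
  decide +kernel


theorem Q1_all_iff (p : ℕ → Bool) : Q1_all p = true ↔ ∀ a : Fin 3, p a = true := by
  simp [Q1_all, Fin.forall_fin_succ]

/-- The values of `g` as a function on natural numbers. -/
def Q1_F (g : Fin 3 → Fin 3 → Fin 3 → Fin 3) (a b c : ℕ) : ℕ :=
  ((g (Fin.ofNat 3 a) (Fin.ofNat 3 b) (Fin.ofNat 3 c) : Fin 3) : ℕ)

theorem Q1_Fval (g : Fin 3 → Fin 3 → Fin 3 → Fin 3) (a b c : Fin 3) :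
    Q1_F g a b c = ((g a b c : Fin 3) : ℕ) := by
  simp [Q1_F]

/-- A word of length five as a periodic configuration. -/
def Q1_y5 (a b c : Fin 3) : ZMod 5 → Fin 3 := (![a, b, c, 0, 0] : Fin 5 → Fin 3)

theorem Q1_eq (g : Fin 3 → Fin 3 → Fin 3 → Fin 3)
    (h5 : ∀ y : ZMod 5 → Fin 3, ∑ s, ((g (y (s - 1)) (y s) (y (s + 1)) : Fin 3) : ℕ) = ∑ s, ((y s : Fin 3) : ℕ))
    (a b c : Fin 3) :
    ((g 0 a b : Fin 3) : ℕ) + ((g a b c : Fin 3) : ℕ) + ((g b c 0 : Fin 3) : ℕ)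
      + ((g c 0 0 : Fin 3) : ℕ) + ((g 0 0 a : Fin 3) : ℕ) = (a : ℕ) + (b : ℕ) + (c : ℕ) := by
  have h := h5 (Q1_y5 a b c)
  have h1 : (∑ s : ZMod 5, ((g (Q1_y5 a b c (s - 1)) (Q1_y5 a b c s)
      (Q1_y5 a b c (s + 1)) : Fin 3) : ℕ)) =
      ((g 0 a b : Fin 3) : ℕ) + ((g a b c : Fin 3) : ℕ) + ((g b c 0 : Fin 3) : ℕ)
      + ((g c 0 0 : Fin 3) : ℕ) + ((g 0 0 a : Fin 3) : ℕ) :=
    Fin.sum_univ_five _
  have h2 : (∑ s : ZMod 5, ((Q1_y5 a b c s : Fin 3) : ℕ)) =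
      (a : ℕ) + (b : ℕ) + (c : ℕ) + ((0 : Fin 3) : ℕ) + ((0 : Fin 3) : ℕ) :=
    Fin.sum_univ_five _
  rw [h1] at h
  have h3 := h.trans h2
  simpa using h3

theorem Q1_C4_false (g : Fin 3 → Fin 3 → Fin 3 → Fin 3)
    (h4 : ∀ y y' : ZMod 4 → Fin 3, (∀ s, g (y (s - 1)) (y s) (y (s + 1)) =
      g (y' (s - 1)) (y' s) (y' (s + 1))) → y = y') (a b c d a' b' c' d' : Fin 3)
    (hne : (![a, b, c, d] : Fin 4 → Fin 3) ≠ ![a', b', c', d']) :
    Q1_C4 (Q1_F g) a b c d a' b' c' d' = false := by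
  by_contra h
  rw [Bool.not_eq_false] at h
  unfold Q1_C4 at h
  simp only [Bool.and_eq_true, Q1_Fval] at h
  obtain ⟨e1, e2, e3, e4⟩ := h
  have e1 := Fin.ext (Nat.eq_of_beq_eq_true e1)
  have e2 := Fin.ext (Nat.eq_of_beq_eq_true e2)
  have e3 := Fin.ext (Nat.eq_of_beq_eq_true e3)
  have e4 := Fin.ext (Nat.eq_of_beq_eq_true e4)
  apply hne
  refine h4 _ _ ?_
  intro s
  have : ∀ s : Fin 4, s = 0 ∨ s = 1 ∨ s = 2 ∨ s = 3 := by decide
  rcases this s with rfl | rfl | rfl | rfl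
  · exact e1
  · exact e2
  · exact e3
  · exact e4

theorem Q1_C3_false (g : Fin 3 → Fin 3 → Fin 3 → Fin 3)
    (h3 : ∀ y y' : ZMod 3 → Fin 3, (∀ s, g (y (s - 1)) (y s) (y (s + 1)) =
      g (y' (s - 1)) (y' s) (y' (s + 1))) → y = y') (a b c a' b' c' : Fin 3)
    (hne : (![a, b, c] : Fin 3 → Fin 3) ≠ ![a', b', c']) :
    Q1_C3 (Q1_F g) a b c a' b' c' = false := by
  by_contra h
  rw [Bool.not_eq_false] at h
  unfold Q1_C3 at h
  simp only [Bool.and_eq_true, Q1_Fval] at h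
  obtain ⟨e1, e2, e3⟩ := h
  have e1 := Fin.ext (Nat.eq_of_beq_eq_true e1)
  have e2 := Fin.ext (Nat.eq_of_beq_eq_true e2)
  have e3 := Fin.ext (Nat.eq_of_beq_eq_true e3)
  apply hne
  refine h3 _ _ ?_
  intro s
  have : ∀ s : Fin 3, s = 0 ∨ s = 1 ∨ s = 2 := by decide
  rcases this s with rfl | rfl | rfl
  · exact e1
  · exact e2
  · exact e3


theorem Q1_beq (a b : ℕ) : Nat.beq a b = decide (a = b) := by
  by_cases h : a = b
  · subst h; simp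
  · simp only [h, decide_false]
    cases hb : Nat.beq a b
    · rfl
    · exact absurd (Nat.eq_of_beq_eq_true hb) h

theorem Q1_tab (g : Fin 3 → Fin 3 → Fin 3 → Fin 3)
    (h5 : ∀ y : ZMod 5 → Fin 3, ∑ s, ((g (y (s - 1)) (y s) (y (s + 1)) : Fin 3) : ℕ) = ∑ s, ((y s : Fin 3) : ℕ))
    (a b c : Fin 3) :
    Q1_R (Q1_T (g 0 0 1).val (g 0 0 2).val (g 0 1 0).val (g 0 1 1).val (g 0 1 2).val (g 0 2 0).val
      (g 0 2 1).val (g 0 2 2).val) a b c = ((g a b c : Fin 3) : ℕ) := by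
  have e := Q1_eq g h5
  have e0 := e 0 0 0
  have ec := e 0 0 c
  have ea := e a 0 0
  have eb := e b 0 0
  have ec' := e c 0 0
  have eab := e a b 0
  have ebc := e b c 0
  have eabc := e a b c
  fin_cases a <;> fin_cases b <;> fin_cases c <;>
    simp [Q1_R, Q1_T, Q1_U, Q1_V, Q1_beq] at e0 ec ea eb ec' eab ebc eabc ⊢ <;> omega

theorem Q1 (g : Fin 3 → Fin 3 → Fin 3 → Fin 3)
    (h5 : ∀ y : ZMod 5 → Fin 3, ∑ s, ((g (y (s - 1)) (y s) (y (s + 1)) : Fin 3) : ℕ) = ∑ s, ((y s : Fin 3) : ℕ))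
    (h3 : ∀ y y' : ZMod 3 → Fin 3, (∀ s, g (y (s - 1)) (y s) (y (s + 1)) =
      g (y' (s - 1)) (y' s) (y' (s + 1))) → y = y')
    (h4 : ∀ y y' : ZMod 4 → Fin 3, (∀ s, g (y (s - 1)) (y s) (y (s + 1)) =
      g (y' (s - 1)) (y' s) (y' (s + 1))) → y = y') : IsProj g := by
  have key := Q1_key (g 0 0 1) (g 0 0 2) (g 0 1 0) (g 0 1 1) (g 0 1 2) (g 0 2 0) (g 0 2 1) (g 0 2 2)
  have tab := Q1_tab g h5
  generalize hF : Q1_R (Q1_T (g 0 0 1).val (g 0 0 2).val (g 0 1 0).val (g 0 1 1).val (g 0 1 2).val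
    (g 0 2 0).val (g 0 2 1).val (g 0 2 2).val) = F at key tab
  clear hF
  -- collisions
  have c4 : ∀ a b c d a' b' c' d' : Fin 3, (![a, b, c, d] : Fin 4 → Fin 3) ≠ ![a', b', c', d'] →
      Q1_C4 F a b c d a' b' c' d' = false := by
    intro a b c d a' b' c' d' hne
    have := Q1_C4_false g h4 a b c d a' b' c' d' hne
    simpa only [Q1_C4, tab, Q1_Fval] using this
  have c3 : ∀ a b c a' b' c' : Fin 3, (![a, b, c] : Fin 3 → Fin 3) ≠ ![a', b', c'] →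
      Q1_C3 F a b c a' b' c' = false := by
    intro a b c a' b' c' hne
    have := Q1_C3_false g h3 a b c a' b' c' hne
    simpa only [Q1_C3, tab, Q1_Fval] using this
  have k1 : Q1_C4 F 0 2 0 2 1 1 1 1 = false := c4 0 2 0 2 1 1 1 1 (by decide)
  have k2 : Q1_C4 F 0 2 2 2 2 2 0 2 = false := c4 0 2 2 2 2 2 0 2 (by decide)
  have k3 : Q1_C4 F 0 0 2 2 2 2 0 0 = false := c4 0 0 2 2 2 2 0 0 (by decide)
  have k4 : Q1_C4 F 0 0 0 2 0 2 0 0 = false := c4 0 0 0 2 0 2 0 0 (by decide)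
  have k5 : Q1_C4 F 1 1 2 2 2 2 1 1 = false := c4 1 1 2 2 2 2 1 1 (by decide)
  have k6 : Q1_C3 F 0 1 2 1 0 2 = false := c3 0 1 2 1 0 2 (by decide)
  have k7 : Q1_C4 F 0 0 2 2 0 1 1 2 = false := c4 0 0 2 2 0 1 1 2 (by decide)
  have k8 : Q1_C4 F 0 0 2 2 1 0 2 1 = false := c4 0 0 2 2 1 0 2 1 (by decide)
  have kE : (Q1_all fun c => Q1_all fun b => Q1_all fun a => Q1_E F a b c) = true := by
    rw [Q1_all_iff]; intro c
    rw [Q1_all_iff]; intro b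
    rw [Q1_all_iff]; intro a
    have e := Q1_eq g h5 a b c
    have f1 : F 0 a b = ((g 0 a b : Fin 3) : ℕ) := tab 0 a b
    have f2 : F b c 0 = ((g b c 0 : Fin 3) : ℕ) := tab b c 0
    have f3 : F c 0 0 = ((g c 0 0 : Fin 3) : ℕ) := tab c 0 0
    have f4 : F 0 0 a = ((g 0 0 a : Fin 3) : ℕ) := tab 0 0 a
    unfold Q1_E
    rw [tab a b c, f1, f2, f3, f4, e, Nat.beq_refl, Bool.and_true]
    exact Nat.ble_eq_true_of_le (by have := (g a b c).isLt; omega)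
  unfold Q1_P at key
  rw [kE, k1, k2, k3, k4, k5, k6, k7, k8] at key
  simp only [Bool.not_true, Bool.false_or, Bool.or_eq_true, Q1_all_iff] at key
  rcases key with key | key | key
  · left
    intro a b c
    have := Nat.eq_of_beq_eq_true (key a b c)
    rw [tab a b c] at this
    exact Fin.ext this
  · right; left
    intro a b c
    have := Nat.eq_of_beq_eq_true (key a b c)
    rw [tab a b c] at this
    exact Fin.ext this
  · right; right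
    intro a b c
    have := Nat.eq_of_beq_eq_true (key a b c)
    rw [tab a b c] at this
    exact Fin.ext this

end Pool.Agent.Run7.h233.NC
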