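import Mathlib
import Pool.Agent.Run7.h233.NC.Defs

set_option autoImplicit false

/-! Project NC (helper233), piece Q4: the zero configuration and single cells. -/

open Finset

namespace Pool.Agent.Run7.h233.NC.N_Q4

open Pool.Agent.Run7.h233.NC

lemma nb_inj {d : ℕ} : Function.Injective (nb : Nb d → (Fin d → ZMod 3)) := by
  have e1 : (1 : ZMod 3) ≠ 0 := by decide
  have e2 : (-1 : ZMod 3) ≠ 0 := by decide
  have e3 : (1 : ZMod 3) ≠ -1 := by decide
  have val : ∀ (i : Fin d) (s : Bool), (nb (some (i, s)) : Fin d → ZMod 3) =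
      Pi.single i (if s = true then 1 else -1) := by
    intro i s
    cases s <;> rfl
  have nz : ∀ s : Bool, (if s = true then (1 : ZMod 3) else -1) ≠ 0 := by
    intro s
    cases s
    · exact e2
    · exact e1
  have n0 : (nb (none : Nb d) : Fin d → ZMod 3) = 0 := rfl
  intro u w h
  rcases u with _ | ⟨i, s⟩ <;> rcases w with _ | ⟨j, t⟩
  · rfl
  · exfalso
    rw [n0, val] at h
    have h1 := congrFun h j
    rw [Pi.single_eq_same, Pi.zero_apply] at h1
    exact nz t h1.symm
  · exfalso
    rw [n0, val] at h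
    have h1 := congrFun h i
    rw [Pi.single_eq_same, Pi.zero_apply] at h1
    exact nz s h1
  · rw [val, val] at h
    have h1 := congrFun h i
    rw [Pi.single_eq_same] at h1
    by_cases hij : i = j
    · subst hij
      rw [Pi.single_eq_same] at h1
      cases s <;> cases t
      · rfl
      · exact absurd h1.symm e3
      · exact absurd h1 e3
      · rfl
    · rw [Pi.single_eq_of_ne hij] at h1
      exact absurd h1 (nz s)

theorem Q4 {d : ℕ} (f : (Nb d → Fin 3) → Fin 3) (hf : NumberConserving f) :
    f (fun _ => 0) = 0 ∧ ∀ a : Fin 3, ∑ c, fz f (pt c a) = ((a : ℕ) : ℤ) := by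
  have h0 : f (fun _ => 0) = 0 := by
    have h := hf 1 (fun _ => 0)
    simp only [Fin.val_zero, sum_const_zero] at h
    have h1 := (Finset.sum_eq_zero_iff.1 h) 0 (Finset.mem_univ _)
    exact Fin.ext h1
  refine ⟨h0, fun a => ?_⟩
  have h := hf 3 (fun v => if v = 0 then a else 0)
  have hr : ∑ v : Fin d → ZMod 3, (((if v = 0 then a else 0 : Fin 3)) : ℕ) = (a : ℕ) := by
    rw [Finset.sum_eq_single (0 : Fin d → ZMod 3)]
    · rw [if_pos rfl]
    · intro b _ hb
      rw [if_neg hb]
      rfl
    · intro hb
      exact absurd (Finset.mem_univ _) hb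
  rw [hr] at h
  have hl : ∑ v : Fin d → ZMod 3, ((step f (fun v => if v = 0 then a else 0) v : Fin 3) : ℕ) =
      ∑ c : Nb d, ((f (pt c a) : Fin 3) : ℕ) := by
    have e1 : ∀ c : Nb d, ((step f (fun v => if v = 0 then a else 0)
        (-(nb c : Fin d → ZMod 3)) : Fin 3) : ℕ) = ((f (pt c a) : Fin 3) : ℕ) := by
      intro c
      have e : (fun u : Nb d => if -(nb c : Fin d → ZMod 3) + nb u = 0 then a else 0) =
          pt c a := by
        funext u
        unfold pt
        have e2 : -(nb c : Fin d → ZMod 3) + nb u = 0 ↔ u = c := by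
          rw [neg_add_eq_zero]
          exact ⟨fun h => (nb_inj h).symm, fun h => by rw [h]⟩
        simp only [e2]
      unfold step
      rw [e]
    rw [← Finset.sum_congr rfl (fun c _ => e1 c)]
    rw [← Finset.sum_image (s := (Finset.univ : Finset (Nb d)))
      (g := fun c => -(nb c : Fin d → ZMod 3))
      (f := fun v => ((step f (fun v => if v = 0 then a else 0) v : Fin 3) : ℕ))
      (fun c _ c' _ hcc => nb_inj (neg_injective hcc))]
    symm
    apply Finset.sum_subset (Finset.subset_univ _)
    intro v _ hv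
    have e : (fun u : Nb d => if v + nb u = 0 then a else 0) = fun _ => (0 : Fin 3) := by
      funext u
      rw [if_neg]
      intro h2
      apply hv
      rw [Finset.mem_image]
      exact ⟨u, Finset.mem_univ _, (eq_neg_of_add_eq_zero_left h2).symm⟩
    unfold step
    rw [e, h0]
    rfl
  rw [hl] at h
  unfold fz
  exact_mod_cast h

end Pool.Agent.Run7.h233.NC.N_Q4


namespace Pool.Agent.Run7.h233.NC

alias Q4 := N_Q4.Q4

end Pool.Agent.Run7.h233.NC
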