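import Mathlib
import Pool.Agent.Run7.h233.NC.Defs

open Finset

namespace Pool.Agent.Run7.h233.NC

theorem Q2_coord {d : ℕ} (u : Nb d) (i : Fin d) :
    (nb u i : ZMod 5) = 0 ∨ (nb u i : ZMod 5) = 1 ∨ (nb u i : ZMod 5) = -1 := by
  rcases u with _ | ⟨j, _ | _⟩
  · left; rfl
  · by_cases h : i = j
    · subst h; right; right; simp [nb]
    · left; simp [nb, h]
  · by_cases h : i = j
    · subst h; right; left; simp [nb]
    · left; simp [nb, h]

theorem Q2_pos {d : ℕ} (u : Nb d) (i : Fin d) (h : (nb u i : ZMod 5) = 1) :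
    u = some (i, true) := by
  have e1 : (0 : ZMod 5) ≠ 1 := by decide
  have e2 : (-1 : ZMod 5) ≠ 1 := by decide
  rcases u with _ | ⟨j, _ | _⟩
  · exact absurd h e1
  · exfalso
    by_cases hj : i = j
    · subst hj
      simp only [nb, Pi.single_eq_same] at h
      exact e2 h
    · simp only [nb, Pi.single_apply, hj, if_false] at h
      exact e1 h
  · by_cases hj : i = j
    · subst hj; rfl
    · exfalso
      simp only [nb, Pi.single_apply, hj, if_false] at h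
      exact e1 h

theorem Q2_neg {d : ℕ} (u : Nb d) (i : Fin d) (h : (nb u i : ZMod 5) = -1) :
    u = some (i, false) := by
  have e1 : (0 : ZMod 5) ≠ -1 := by decide
  have e2 : (1 : ZMod 5) ≠ -1 := by decide
  rcases u with _ | ⟨j, _ | _⟩
  · exact absurd h e1
  · by_cases hj : i = j
    · subst hj; rfl
    · exfalso
      simp only [nb, Pi.single_apply, hj, if_false] at h
      exact e1 h
  · exfalso
    by_cases hj : i = j
    · subst hj
      simp only [nb, Pi.single_eq_same] at h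
      exact e2 h
    · simp only [nb, Pi.single_apply, hj, if_false] at h
      exact e1 h

theorem Q2_inj {d : ℕ} (u u' : Nb d) (h : (nb u : Fin d → ZMod 5) = nb u') : u = u' := by
  have e1 : (0 : ZMod 5) ≠ 1 := by decide
  have e2 : (0 : ZMod 5) ≠ -1 := by decide
  rcases u with _ | ⟨j, _ | _⟩
  · rcases u' with _ | ⟨k, _ | _⟩
    · rfl
    · exfalso
      have h1 := congrFun h k
      simp only [nb, Pi.single_eq_same, Pi.zero_apply] at h1
      exact e2 h1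
    · exfalso
      have h1 := congrFun h k
      simp only [nb, Pi.single_eq_same, Pi.zero_apply] at h1
      exact e1 h1
  · symm
    apply Q2_neg
    rw [← h]
    simp [nb]
  · symm
    apply Q2_pos
    rw [← h]
    simp [nb]

theorem Q2_arith : ∀ z p q : ZMod 5, z ≠ 0 → (p = 0 ∨ p = 1 ∨ p = -1) →
    (q = 0 ∨ q = 1 ∨ q = -1) → p = z + q →
    ((z = 1 ∨ z = 2) ∧ (p = 1 ∨ q = -1)) ∨ ((z = -1 ∨ z = -2) ∧ (p = -1 ∨ q = 1)) := by
  intro z p q hz hp hq h
  rcases hp with rfl | rfl | rfl <;> rcases hq with rfl | rfl | rfl <;> revert z <;> decide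

theorem Q2_sign : ∀ z : ZMod 5, ¬ ((z = 1 ∨ z = 2) ∧ (z = -1 ∨ z = -2)) := by
  decide

/-- Q2: a plus and another translate of it have at most two cells in common. -/
theorem Q2 {d : ℕ} (v : Fin d → ZMod 5) (hv : v ≠ 0) (u1 u2 u3 w1 w2 w3 : Nb d)
    (h1 : (nb u1 : Fin d → ZMod 5) = v + nb w1) (h2 : (nb u2 : Fin d → ZMod 5) = v + nb w2)
    (h3 : (nb u3 : Fin d → ZMod 5) = v + nb w3) : u1 = u2 ∨ u1 = u3 ∨ u2 = u3 := by
  obtain ⟨i, hi⟩ : ∃ i, v i ≠ 0 := by
    by_contra hc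
    push Not at hc
    exact hv (funext hc)
  have key : ∀ u w : Nb d, (nb u : Fin d → ZMod 5) = v + nb w →
      ((v i = 1 ∨ v i = 2) ∧ (u = some (i, true) ∨ w = some (i, false))) ∨
      ((v i = -1 ∨ v i = -2) ∧ (u = some (i, false) ∨ w = some (i, true))) := by
    intro u w h
    rcases Q2_arith (v i) (nb u i) (nb w i) hi (Q2_coord u i) (Q2_coord w i)
      (congrFun h i) with ⟨a, b | b⟩ | ⟨a, b | b⟩
    · exact Or.inl ⟨a, Or.inl (Q2_pos u i b)⟩
    · exact Or.inl ⟨a, Or.inr (Q2_neg w i b)⟩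
    · exact Or.inr ⟨a, Or.inl (Q2_neg u i b)⟩
    · exact Or.inr ⟨a, Or.inr (Q2_pos w i b)⟩
  have inj : ∀ u u' w w' : Nb d, (nb u : Fin d → ZMod 5) = v + nb w →
      (nb u' : Fin d → ZMod 5) = v + nb w' → w = w' → u = u' := by
    intro u u' w w' h h' e
    subst e
    exact Q2_inj u u' (h.trans h'.symm)
  have pig : ∀ (P Q : Nb d), (u1 = P ∨ w1 = Q) → (u2 = P ∨ w2 = Q) → (u3 = P ∨ w3 = Q) →
      u1 = u2 ∨ u1 = u3 ∨ u2 = u3 := by
    intro P Q a1 a2 a3
    rcases a1 with a1 | a1 <;> rcases a2 with a2 | a2 <;> rcases a3 with a3 | a3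
    · exact Or.inl (a1.trans a2.symm)
    · exact Or.inl (a1.trans a2.symm)
    · exact Or.inr (Or.inl (a1.trans a3.symm))
    · exact Or.inr (Or.inr (inj _ _ _ _ h2 h3 (a2.trans a3.symm)))
    · exact Or.inr (Or.inr (a2.trans a3.symm))
    · exact Or.inr (Or.inl (inj _ _ _ _ h1 h3 (a1.trans a3.symm)))
    · exact Or.inl (inj _ _ _ _ h1 h2 (a1.trans a2.symm))
    · exact Or.inl (inj _ _ _ _ h1 h2 (a1.trans a2.symm))
  rcases key u1 w1 h1 with ⟨s1, k1⟩ | ⟨s1, k1⟩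
  · rcases key u2 w2 h2 with ⟨s2, k2⟩ | ⟨s2, k2⟩
    · rcases key u3 w3 h3 with ⟨s3, k3⟩ | ⟨s3, k3⟩
      · exact pig _ _ k1 k2 k3
      · exact absurd ⟨s1, s3⟩ (Q2_sign _)
    · exact absurd ⟨s1, s2⟩ (Q2_sign _)
  · rcases key u2 w2 h2 with ⟨s2, k2⟩ | ⟨s2, k2⟩
    · exact absurd ⟨s2, s1⟩ (Q2_sign _)
    · rcases key u3 w3 h3 with ⟨s3, k3⟩ | ⟨s3, k3⟩
      · exact absurd ⟨s3, s1⟩ (Q2_sign _)
      · exact pig _ _ k1 k2 k3

end Pool.Agent.Run7.h233.NC
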