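import Mathlib
import Pool.Agent.Run7.h233.NC.Defs
import Pool.Agent.Run7.h233.NC.Q2

open Finset

namespace Pool.Agent.Run7.h233.NC

lemma Q3_ninj {d : ℕ} : Function.Injective (nb : Nb d → (Fin d → ZMod 5)) := by
  have h10 : (1 : ZMod 5) ≠ 0 := by decide
  have hm0 : (-1 : ZMod 5) ≠ 0 := by decide
  have h1m : (1 : ZMod 5) ≠ -1 := by decide
  have hs : ∀ (i : Fin d) (s : Bool), (nb (some (i, s)) : Fin d → ZMod 5) i ≠ 0 := by
    intro i s
    cases s
    · simp only [nb, Pi.single_eq_same]; exact hm0
    · simp only [nb, Pi.single_eq_same]; exact h10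
  have hz : ∀ (i j : Fin d) (s : Bool), i ≠ j → (nb (some (j, s)) : Fin d → ZMod 5) i = 0 := by
    intro i j s hij
    cases s
    · simp only [nb]; exact Pi.single_eq_of_ne hij _
    · simp only [nb]; exact Pi.single_eq_of_ne hij _
  intro a b h
  rcases a with _ | ⟨i, s⟩ <;> rcases b with _ | ⟨j, t⟩
  · rfl
  · exact absurd (congrFun h j).symm (by simpa [nb] using hs j t)
  · exact absurd (congrFun h i) (by simpa [nb] using hs i s)
  · by_cases hij : i = j
    · subst hij
      have h2 := congrFun h i
      cases s <;> cases t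
      · rfl
      · simp only [nb, Pi.single_eq_same] at h2
        exact absurd h2.symm h1m
      · simp only [nb, Pi.single_eq_same] at h2
        exact absurd h2 h1m
      · rfl
    · have h2 := congrFun h i
      rw [hz i j t hij] at h2
      exact absurd h2 (hs i s)

/-- the configuration `q` on the plus at `0`, zero elsewhere -/
noncomputable def Q3_X {d : ℕ} (q : Nb d → Fin 3) : (Fin d → ZMod 5) → Fin 3 :=
  Function.extend nb q (fun _ => 0)

/-- the local patterns of this configuration -/
noncomputable def Q3_loc {d : ℕ} (q : Nb d → Fin 3) (v : Fin d → ZMod 5) : Nb d → Fin 3 :=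
  fun u => Q3_X q (v + nb u)

lemma Q3_loc0 {d : ℕ} (q : Nb d → Fin 3) : Q3_loc q 0 = q := by
  funext u
  simp only [Q3_loc, zero_add, Q3_X]
  exact Q3_ninj.extend_apply _ _ _

lemma Q3_upd {d : ℕ} (r : Nb d → Fin 3) (c : Nb d) (v : Fin d → ZMod 5)
    (h : ∀ w, (nb c : Fin d → ZMod 5) ≠ v + nb w) :
    Q3_loc (Function.update r c 0) v = Q3_loc r v := by
  funext u
  simp only [Q3_loc, Q3_X]
  by_cases hu : ∃ a : Nb d, (nb a : Fin d → ZMod 5) = v + nb u
  · obtain ⟨a, ha⟩ := hu
    have hac : a ≠ c := by
      rintro rfl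
      exact h u ha
    rw [← ha, Q3_ninj.extend_apply, Q3_ninj.extend_apply, Function.update_of_ne hac]
  · rw [Function.extend_apply' _ _ _ hu, Function.extend_apply' _ _ _ hu]

lemma Q3_sum {d : ℕ} (f : (Nb d → Fin 3) → Fin 3) (hf : NumberConserving f) (q : Nb d → Fin 3) :
    ∑ v, fz f (Q3_loc q v) = ∑ u, (((q u : Fin 3) : ℕ) : ℤ) := by
  have h1 := hf 5 (Q3_X q)
  have h2 : ∑ v, (((Q3_X q v : Fin 3)) : ℕ) = ∑ u, ((q u : Fin 3) : ℕ) := by
    symm
    refine Fintype.sum_of_injective (nb : Nb d → (Fin d → ZMod 5)) Q3_ninj _ _ ?_ ?_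
    · intro v hv
      have : ¬ ∃ a : Nb d, (nb a : Fin d → ZMod 5) = v := fun ⟨a, ha⟩ => hv ⟨a, ha⟩
      simp only [Q3_X]
      rw [Function.extend_apply' _ _ _ this]
      rfl
    · intro u
      simp only [Q3_X]
      rw [Q3_ninj.extend_apply]
  rw [h2] at h1
  have h3 : ∑ v, fz f (Q3_loc q v) = ((∑ v, ((step f (Q3_X q) v : Fin 3) : ℕ) : ℕ) : ℤ) := by
    push_cast
    rfl
  rw [h3, h1]
  push_cast
  rfl

theorem Q3 {d : ℕ} (f : (Nb d → Fin 3) → Fin 3) (hf : NumberConserving f) (q : Nb d → Fin 3)
    (c1 c2 c3 : Nb d) (h12 : c1 ≠ c2) (h13 : c1 ≠ c3) (h23 : c2 ≠ c3) :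
    fz f q - fz f (Function.update q c1 0) - fz f (Function.update q c2 0)
      - fz f (Function.update q c3 0)
      + fz f (Function.update (Function.update q c1 0) c2 0)
      + fz f (Function.update (Function.update q c1 0) c3 0)
      + fz f (Function.update (Function.update q c2 0) c3 0)
      - fz f (Function.update (Function.update (Function.update q c1 0) c2 0) c3 0) = 0 := by
  classical
  have e21 : Function.update (Function.update q c1 0) c2 0 =
      Function.update (Function.update q c2 0) c1 0 := Function.update_comm h12 _ _ _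
  have e31 : Function.update (Function.update q c1 0) c3 0 =
      Function.update (Function.update q c3 0) c1 0 := Function.update_comm h13 _ _ _
  have e32 : Function.update (Function.update q c2 0) c3 0 =
      Function.update (Function.update q c3 0) c2 0 := Function.update_comm h23 _ _ _
  have e132 : Function.update (Function.update (Function.update q c1 0) c2 0) c3 0 =
      Function.update (Function.update (Function.update q c1 0) c3 0) c2 0 :=
    Function.update_comm h23 _ _ _
  have e231 : Function.update (Function.update (Function.update q c1 0) c2 0) c3 0 =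
      Function.update (Function.update (Function.update q c2 0) c3 0) c1 0 := by
    rw [e21]
    exact Function.update_comm h13 _ _ _
  have hv : ∀ v : Fin d → ZMod 5, v ≠ 0 →
      fz f (Q3_loc q v) - fz f (Q3_loc (Function.update q c1 0) v)
      - fz f (Q3_loc (Function.update q c2 0) v)
      - fz f (Q3_loc (Function.update q c3 0) v)
      + fz f (Q3_loc (Function.update (Function.update q c1 0) c2 0) v)
      + fz f (Q3_loc (Function.update (Function.update q c1 0) c3 0) v)
      + fz f (Q3_loc (Function.update (Function.update q c2 0) c3 0) v)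
      - fz f (Q3_loc (Function.update (Function.update (Function.update q c1 0) c2 0) c3 0) v)
        = 0 := by
    intro v hv0
    by_cases i1 : ∀ w, (nb c1 : Fin d → ZMod 5) ≠ v + nb w
    · rw [e231, e21, e31, Q3_upd q c1 v i1, Q3_upd _ c1 v i1, Q3_upd _ c1 v i1, Q3_upd _ c1 v i1]
      ring
    · by_cases i2 : ∀ w, (nb c2 : Fin d → ZMod 5) ≠ v + nb w
      · rw [e132, e32, Q3_upd q c2 v i2, Q3_upd _ c2 v i2, Q3_upd _ c2 v i2, Q3_upd _ c2 v i2]
        ring
      · by_cases i3 : ∀ w, (nb c3 : Fin d → ZMod 5) ≠ v + nb w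
        · rw [Q3_upd q c3 v i3, Q3_upd _ c3 v i3, Q3_upd _ c3 v i3, Q3_upd _ c3 v i3]
          ring
        · exfalso
          push Not at i1 i2 i3
          obtain ⟨w1, k1⟩ := i1
          obtain ⟨w2, k2⟩ := i2
          obtain ⟨w3, k3⟩ := i3
          rcases Q2 v hv0 c1 c2 c3 w1 w2 w3 k1 k2 k3 with h | h | h
          · exact h12 h
          · exact h13 h
          · exact h23 h
  have hsum : ∑ v : Fin d → ZMod 5, (fz f (Q3_loc q v) - fz f (Q3_loc (Function.update q c1 0) v)
      - fz f (Q3_loc (Function.update q c2 0) v)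
      - fz f (Q3_loc (Function.update q c3 0) v)
      + fz f (Q3_loc (Function.update (Function.update q c1 0) c2 0) v)
      + fz f (Q3_loc (Function.update (Function.update q c1 0) c3 0) v)
      + fz f (Q3_loc (Function.update (Function.update q c2 0) c3 0) v)
      - fz f (Q3_loc (Function.update (Function.update (Function.update q c1 0) c2 0) c3 0) v))
        = 0 := by
    simp only [Finset.sum_sub_distrib, Finset.sum_add_distrib]
    rw [Q3_sum f hf, Q3_sum f hf, Q3_sum f hf, Q3_sum f hf, Q3_sum f hf, Q3_sum f hf,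
      Q3_sum f hf, Q3_sum f hf]
    rw [← Finset.sum_sub_distrib, ← Finset.sum_sub_distrib, ← Finset.sum_sub_distrib,
      ← Finset.sum_add_distrib, ← Finset.sum_add_distrib, ← Finset.sum_add_distrib,
      ← Finset.sum_sub_distrib]
    refine Finset.sum_eq_zero fun u _ => ?_
    by_cases k1 : u = c1
    · subst k1
      simp [Function.update_apply, h12, h13]
    · by_cases k2 : u = c2
      · subst k2
        simp [Function.update_apply, k1, h23]
      · by_cases k3 : u = c3
        · subst k3
          simp [Function.update_apply, k1, k2]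
        · simp [Function.update_apply, k1, k2, k3]
  rw [Finset.sum_eq_single (0 : Fin d → ZMod 5) (fun v _ h => hv v h)
    (fun h => absurd (Finset.mem_univ _) h)] at hsum
  simpa only [Q3_loc0] using hsum

end Pool.Agent.Run7.h233.NC
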