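import Mathlib
import Pool.Agent.Run7.h233.NC.Defs
import Pool.Agent.Run7.h233.NC.Q3
import Pool.Agent.Run7.h233.NC.Q4

open Finset

namespace Pool.Agent.Run7.h233.NC

/-- set the cells outside of `s` to zero -/
def Q6_res {d : ℕ} (q : Nb d → Fin 3) (s : Finset (Nb d)) : Nb d → Fin 3 :=
  fun u => if u ∈ s then q u else 0

lemma Q6_res_univ {d : ℕ} (q : Nb d → Fin 3) : Q6_res q Finset.univ = q := by
  funext u; simp [Q6_res]

lemma Q6_res_empty {d : ℕ} (q : Nb d → Fin 3) : Q6_res q ∅ = fun _ => 0 := by
  funext u; simp [Q6_res]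

lemma Q6_res_single {d : ℕ} (q : Nb d → Fin 3) (c : Nb d) : Q6_res q {c} = pt c (q c) := by
  funext u; simp only [Q6_res, pt, Finset.mem_singleton]; split_ifs with h
  · rw [h]
  · rfl

lemma Q6_res_pair {d : ℕ} (q : Nb d → Fin 3) (c c' : Nb d) :
    Q6_res q {c, c'} = pr c c' (q c) (q c') := by
  funext u; simp only [Q6_res, pr, Finset.mem_insert, Finset.mem_singleton]
  by_cases h : u = c
  · simp [h]
  · by_cases h' : u = c'
    · simp [h']
      intro h2
      rw [h2]
    · simp [h, h']

lemma Q6_res_update {d : ℕ} (q : Nb d → Fin 3) (s : Finset (Nb d)) (c : Nb d) :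
    Function.update (Q6_res q s) c 0 = Q6_res q (s.erase c) := by
  funext u
  by_cases h : u = c
  · subst h; simp [Q6_res]
  · simp [Q6_res, h]

/-- second difference is independent of the rest -/
lemma Q6_second {d : ℕ} (f : (Nb d → Fin 3) → Fin 3) (hf : NumberConserving f) (q : Nb d → Fin 3)
    (c c' : Nb d) (hcc : c ≠ c') (s : Finset (Nb d)) (hc : c ∉ s) (hc' : c' ∉ s) :
    fz f (Q6_res q (insert c (insert c' s))) - fz f (Q6_res q (insert c s))
      - fz f (Q6_res q (insert c' s)) + fz f (Q6_res q s)
      = psi f c c' (q c) (q c') + fz f (fun _ => 0) := by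
  induction s using Finset.induction_on with
  | empty =>
    rw [Q6_res_empty]
    have e1 : (insert c (insert c' ∅) : Finset (Nb d)) = {c, c'} := rfl
    have e2 : (insert c ∅ : Finset (Nb d)) = {c} := rfl
    have e3 : (insert c' ∅ : Finset (Nb d)) = {c'} := rfl
    rw [e1, e2, e3, Q6_res_pair, Q6_res_single, Q6_res_single]
    unfold psi
    ring
  | insert e s he ih =>
    have hce : c ≠ e := fun h => hc (h ▸ Finset.mem_insert_self _ _)
    have hce' : c' ≠ e := fun h => hc' (h ▸ Finset.mem_insert_self _ _)
    have hcs : c ∉ s := fun h => hc (Finset.mem_insert_of_mem h)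
    have hcs' : c' ∉ s := fun h => hc' (Finset.mem_insert_of_mem h)
    have ih' := ih hcs hcs'
    have h3 := Q3 f hf (Q6_res q (insert c (insert c' (insert e s)))) c c' e hcc hce hce'
    simp only [Q6_res_update] at h3
    have a1 : (insert c (insert c' (insert e s))).erase c = insert c' (insert e s) := by
      rw [Finset.erase_insert]; simp [hcc, hce, hcs]
    have a2 : (insert c (insert c' (insert e s))).erase c' = insert c (insert e s) := by
      ext u; simp only [Finset.mem_erase, Finset.mem_insert]
      constructor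
      · rintro ⟨h1, h2 | h2 | h2 | h2⟩
        · exact Or.inl h2
        · exact absurd h2 h1
        · exact Or.inr (Or.inl h2)
        · exact Or.inr (Or.inr h2)
      · rintro (h | h | h)
        · exact ⟨fun h' => hcc (h.symm.trans h'), Or.inl h⟩
        · exact ⟨fun h' => hce' (h'.symm.trans h), Or.inr (Or.inr (Or.inl h))⟩
        · exact ⟨fun h' => hcs' (h' ▸ h), Or.inr (Or.inr (Or.inr h))⟩
    have a3 : (insert c (insert c' (insert e s))).erase e = insert c (insert c' s) := by
      ext u; simp only [Finset.mem_erase, Finset.mem_insert]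
      constructor
      · rintro ⟨h1, h2 | h2 | h2 | h2⟩
        · exact Or.inl h2
        · exact Or.inr (Or.inl h2)
        · exact absurd h2 h1
        · exact Or.inr (Or.inr h2)
      · rintro (h | h | h)
        · exact ⟨fun h' => hce (h.symm.trans h'), Or.inl h⟩
        · exact ⟨fun h' => hce' (h.symm.trans h'), Or.inr (Or.inl h)⟩
        · exact ⟨fun h' => he (h' ▸ h), Or.inr (Or.inr (Or.inr h))⟩
    have a4 : (insert c' (insert e s)).erase c' = insert e s := by
      rw [Finset.erase_insert]; simp [hce', hcs']
    have a5 : (insert c' (insert e s)).erase e = insert c' s := by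
      rw [Finset.erase_insert_of_ne hce', Finset.erase_insert he]
    have a6 : (insert c (insert e s)).erase e = insert c s := by
      rw [Finset.erase_insert_of_ne hce, Finset.erase_insert he]
    have a7 : (insert e s).erase e = s := Finset.erase_insert he
    rw [a1, a2, a3, a4, a5, a6, a7] at h3
    linarith

theorem Q6 {d : ℕ} (f : (Nb d → Fin 3) → Fin 3) (hf : NumberConserving f) (q : Nb d → Fin 3) :
    2 * fz f q = 2 * ∑ c, fz f (pt c (q c))
      + ∑ c, ∑ c' ∈ Finset.univ.erase c, psi f c c' (q c) (q c') := by
  have hz : fz f (fun _ => 0) = 0 := by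
    unfold fz; rw [(Q4 f hf).1]; rfl
  have hsym : ∀ c c', psi f c c' (q c) (q c') = psi f c' c (q c') (q c) := by
    intro c c'
    unfold psi
    rw [← Q6_res_pair, ← Q6_res_pair, Finset.pair_comm]
    ring
  -- adding one cell
  have hadd : ∀ (s : Finset (Nb d)) (c : Nb d), c ∉ s →
      fz f (Q6_res q (insert c s)) - fz f (Q6_res q s)
        = fz f (pt c (q c)) + ∑ c' ∈ s, psi f c c' (q c) (q c') := by
    intro s
    induction s using Finset.induction_on with
    | empty =>
      intro c _
      rw [Q6_res_empty, hz, Finset.sum_empty]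
      have e2 : (insert c ∅ : Finset (Nb d)) = {c} := rfl
      rw [e2, Q6_res_single]
      ring
    | insert e s he ih =>
      intro c hc
      have hce : c ≠ e := fun h => hc (h ▸ Finset.mem_insert_self _ _)
      have hcs : c ∉ s := fun h => hc (Finset.mem_insert_of_mem h)
      have h2 := Q6_second f hf q c e hce s hcs he
      rw [Finset.sum_insert he]
      have := ih c hcs
      rw [hz] at h2
      linarith
  have hall : ∀ s : Finset (Nb d), 2 * fz f (Q6_res q s) = 2 * ∑ c ∈ s, fz f (pt c (q c))
      + ∑ c ∈ s, ∑ c' ∈ s.erase c, psi f c c' (q c) (q c') := by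
    intro s
    induction s using Finset.induction_on with
    | empty => rw [Q6_res_empty, hz]; simp
    | insert e s he ih =>
      have h1 := hadd s e he
      rw [Finset.sum_insert he, Finset.sum_insert he, Finset.erase_insert he]
      have h2 : ∑ c ∈ s, ∑ c' ∈ (insert e s).erase c, psi f c c' (q c) (q c')
          = ∑ c ∈ s, psi f e c (q e) (q c) + ∑ c ∈ s, ∑ c' ∈ s.erase c, psi f c c' (q c) (q c') := by
        rw [← Finset.sum_add_distrib]
        refine Finset.sum_congr rfl fun c hc => ?_
        have hne : e ≠ c := fun h => he (h ▸ hc)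
        rw [Finset.erase_insert_of_ne hne, Finset.sum_insert (by simp [he]), hsym c e]
      rw [h2]
      linarith
  have := hall Finset.univ
  rwa [Q6_res_univ] at this

end Pool.Agent.Run7.h233.NC
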