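import Mathlib
import Pool.Agent.Run7.h233.NC.Defs
import Pool.Agent.Run7.h233.NC.Q4
import Pool.Agent.Run7.h233.NC.Q6

open Finset

namespace Pool.Agent.Run7.h233.NC

def Q10_sel (s a b c : Fin 3) : Fin 3 := if s = 1 then a else if s = 0 then b else c

theorem Q10_qe {d : ℕ} (ε : Fin d → ℤ) (a b c : Fin 3) (u : Nb d) :
    qe ε a b c u = Q10_sel (qe ε 1 0 2 u) a b c := by
  rcases u with _ | ⟨i, _ | _⟩
  · simp [qe, Q10_sel]
  · simp only [qe, Q10_sel]; split_ifs <;> simp_all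
  · simp only [qe, Q10_sel]; split_ifs <;> simp_all

theorem Q10_pt0 {d : ℕ} (f : (Nb d → Fin 3) → Fin 3) (hf : NumberConserving f) (u : Nb d) :
    fz f (pt u 0) = 0 := by
  have : (pt u 0 : Nb d → Fin 3) = fun _ => 0 := by funext x; simp [pt]
  rw [this, fz, (Q4 f hf).1]; rfl

theorem Q10_right {d : ℕ} (f : (Nb d → Fin 3) → Fin 3) (hf : NumberConserving f) (u u' : Nb d)
    (a : Fin 3) : psi f u u' a 0 = 0 := by
  have : (pr u u' a 0 : Nb d → Fin 3) = pt u a := by funext x; simp [pt, pr]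
  rw [psi, this, Q10_pt0 f hf]; ring

theorem Q10_symm {d : ℕ} (f : (Nb d → Fin 3) → Fin 3) (u u' : Nb d) (h : u ≠ u')
    (a b : Fin 3) : psi f u u' a b = psi f u' u b a := by
  have : (pr u u' a b : Nb d → Fin 3) = pr u' u b a := by
    funext x
    simp only [pr]
    by_cases h1 : x = u
    · subst h1; simp [h]
    · simp [h1]
  rw [psi, psi, this]; ring

theorem Q10_left {d : ℕ} (f : (Nb d → Fin 3) → Fin 3) (hf : NumberConserving f) (u u' : Nb d)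
    (h : u ≠ u') (a : Fin 3) : psi f u u' 0 a = 0 := by
  rw [Q10_symm f u u' h, Q10_right f hf]

theorem Q10 {d : ℕ} (f : (Nb d → Fin 3) → Fin 3) (hf : NumberConserving f) (ε : Fin d → ℤ)
    (hε : ∀ i, ε i = 1 ∨ ε i = -1 ∨ ε i = 0) (hp : IsProj (fun a b c => f (qe ε a b c))) (b c : Fin 3) :
    ∑ β ∈ Finset.univ.filter (fun u : Nb d => qe ε 1 0 2 u = 0),
      ∑ γ ∈ Finset.univ.filter (fun u : Nb d => qe ε 1 0 2 u = 2), psi f β γ b c = 0 := by
  have hmix : fz f (qe ε 0 b c) - fz f (qe ε 0 b 0) - fz f (qe ε 0 0 c) + fz f (qe ε 0 0 0) = 0 := by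
    rcases hp with hp | hp | hp
    · have hp' : ∀ a b c, f (qe ε a b c) = a := hp
      simp [fz, hp']
    · have hp' : ∀ a b c, f (qe ε a b c) = b := hp
      simp [fz, hp']
    · have hp' : ∀ a b c, f (qe ε a b c) = c := hp
      simp [fz, hp']
  have k1 := Q6 f hf (qe ε 0 b c)
  have k2 := Q6 f hf (qe ε 0 b 0)
  have k3 := Q6 f hf (qe ε 0 0 c)
  have k4 := Q6 f hf (qe ε 0 0 0)
  have hs : ∑ u, fz f (pt u (qe ε 0 b c u)) - ∑ u, fz f (pt u (qe ε 0 b 0 u))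
      - ∑ u, fz f (pt u (qe ε 0 0 c u)) + ∑ u, fz f (pt u (qe ε 0 0 0 u)) = 0 := by
    rw [← Finset.sum_sub_distrib, ← Finset.sum_sub_distrib, ← Finset.sum_add_distrib]
    apply Finset.sum_eq_zero
    intro u _
    rw [Q10_qe ε 0 b c u, Q10_qe ε 0 b 0 u, Q10_qe ε 0 0 c u, Q10_qe ε 0 0 0 u]
    generalize qe ε 1 0 2 u = t
    fin_cases t <;> simp [Q10_sel]
  have hpair : ∑ u, ∑ u' ∈ Finset.univ.erase u, psi f u u' (qe ε 0 b c u) (qe ε 0 b c u')
      - ∑ u, ∑ u' ∈ Finset.univ.erase u, psi f u u' (qe ε 0 b 0 u) (qe ε 0 b 0 u')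
      - ∑ u, ∑ u' ∈ Finset.univ.erase u, psi f u u' (qe ε 0 0 c u) (qe ε 0 0 c u')
      + ∑ u, ∑ u' ∈ Finset.univ.erase u, psi f u u' (qe ε 0 0 0 u) (qe ε 0 0 0 u')
      = ∑ u, ∑ u', (if qe ε 1 0 2 u = 0 ∧ qe ε 1 0 2 u' = 2 then psi f u u' b c else 0)
        + ∑ u, ∑ u', (if qe ε 1 0 2 u' = 0 ∧ qe ε 1 0 2 u = 2 then psi f u' u b c else 0) := by
    rw [← Finset.sum_sub_distrib, ← Finset.sum_sub_distrib, ← Finset.sum_add_distrib,
      ← Finset.sum_add_distrib]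
    apply Finset.sum_congr rfl
    intro u _
    rw [← Finset.sum_sub_distrib, ← Finset.sum_sub_distrib, ← Finset.sum_add_distrib,
      ← Finset.sum_add_distrib]
    rw [← Finset.sum_erase Finset.univ (a := u)
      (f := fun u' => (if qe ε 1 0 2 u = 0 ∧ qe ε 1 0 2 u' = 2 then psi f u u' b c else 0) +
        (if qe ε 1 0 2 u' = 0 ∧ qe ε 1 0 2 u = 2 then psi f u' u b c else 0))]
    · apply Finset.sum_congr rfl
      intro u' hu'
      have hne : u ≠ u' := fun h => (Finset.mem_erase.1 hu').1 h.symm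
      rw [Q10_qe ε 0 b c u, Q10_qe ε 0 b 0 u, Q10_qe ε 0 0 c u, Q10_qe ε 0 0 0 u,
        Q10_qe ε 0 b c u', Q10_qe ε 0 b 0 u', Q10_qe ε 0 0 c u', Q10_qe ε 0 0 0 u']
      generalize qe ε 1 0 2 u = t
      generalize qe ε 1 0 2 u' = t'
      fin_cases t <;> fin_cases t' <;>
        simp [Q10_sel, Q10_left f hf u u' hne, Q10_right f hf u u', Q10_symm f u' u hne.symm]
    · generalize qe ε 1 0 2 u = t
      fin_cases t <;> simp
  have h1 : ∑ u, ∑ u', (if qe ε 1 0 2 u = 0 ∧ qe ε 1 0 2 u' = 2 then psi f u u' b c else 0)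
      = ∑ β ∈ Finset.univ.filter (fun u : Nb d => qe ε 1 0 2 u = 0),
      ∑ γ ∈ Finset.univ.filter (fun u : Nb d => qe ε 1 0 2 u = 2), psi f β γ b c := by
    rw [Finset.sum_filter]
    apply Finset.sum_congr rfl
    intro u _
    rw [Finset.sum_filter]
    by_cases h : qe ε 1 0 2 u = 0
    · simp [h]
    · simp [h]
  have h2 : ∑ u, ∑ u', (if qe ε 1 0 2 u' = 0 ∧ qe ε 1 0 2 u = 2 then psi f u' u b c else 0)
      = ∑ u, ∑ u', (if qe ε 1 0 2 u = 0 ∧ qe ε 1 0 2 u' = 2 then psi f u u' b c else 0) := by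
    rw [Finset.sum_comm]
  rw [h2, h1] at hpair
  linarith

end Pool.Agent.Run7.h233.NC
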