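import Mathlib
import Pool.Agent.Run7.h233.NC.Defs

open Finset

namespace Pool.Agent.Run7.h233.NC

/-- the linear form -/
def Q7_L {d : ℕ} (ε : Fin d → ℤ) (n : ℕ) (v : Fin d → ZMod n) : ZMod n :=
  ∑ i, (ε i : ZMod n) * v i

theorem Q7_add {d : ℕ} (ε : Fin d → ℤ) (n : ℕ) (v w : Fin d → ZMod n) :
    Q7_L ε n (v + w) = Q7_L ε n v + Q7_L ε n w := by
  unfold Q7_L
  rw [← sum_add_distrib]
  refine sum_congr rfl fun i _ => ?_
  rw [Pi.add_apply, mul_add]

theorem Q7_single {d : ℕ} (ε : Fin d → ℤ) (n : ℕ) (i : Fin d) (a : ZMod n) :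
    Q7_L ε n (Pi.single i a) = (ε i : ZMod n) * a := by
  unfold Q7_L
  rw [Finset.sum_eq_single i]
  · rw [Pi.single_eq_same]
  · intro j _ hj
    rw [Pi.single_eq_of_ne hj, mul_zero]
  · intro h
    exact absurd (mem_univ i) h

theorem Q7_fib {d : ℕ} (ε : Fin d → ℤ) (hε : ∀ i, ε i = 1 ∨ ε i = -1 ∨ ε i = 0)
    (h0 : ∃ i, ε i ≠ 0) (n : ℕ) [NeZero n] (H : ZMod n → ℕ) :
    n * ∑ v, H (Q7_L ε n v) = Fintype.card (Fin d → ZMod n) * ∑ s, H s := by
  obtain ⟨i₀, hi₀⟩ := h0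
  have hsq : (ε i₀ : ZMod n) * (ε i₀ : ZMod n) = 1 := by
    rcases hε i₀ with h | h | h
    · rw [h]; simp
    · rw [h]; simp
    · exact absurd h hi₀
  have h1 : ∀ t : ZMod n, ∑ v, H (Q7_L ε n v) = ∑ v, H (Q7_L ε n v + t) := by
    intro t
    rw [← Equiv.sum_comp (Equiv.addRight (Pi.single i₀ ((ε i₀ : ZMod n) * t) : Fin d → ZMod n))
      (fun v => H (Q7_L ε n v))]
    refine sum_congr rfl fun v _ => ?_
    rw [Equiv.coe_addRight, Q7_add, Q7_single, ← mul_assoc, hsq, one_mul]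
  calc n * ∑ v, H (Q7_L ε n v) = ∑ _t : ZMod n, ∑ v, H (Q7_L ε n v) := by
        rw [sum_const, card_univ, ZMod.card, smul_eq_mul]
    _ = ∑ t : ZMod n, ∑ v, H (Q7_L ε n v + t) := sum_congr rfl fun t _ => h1 t
    _ = ∑ v, ∑ t : ZMod n, H (Q7_L ε n v + t) := sum_comm
    _ = ∑ _v : Fin d → ZMod n, ∑ t, H t :=
        sum_congr rfl fun v _ => Equiv.sum_comp (Equiv.addLeft (Q7_L ε n v)) H
    _ = _ := by rw [sum_const, card_univ, smul_eq_mul]

theorem Q7_step {d : ℕ} (f : (Nb d → Fin 3) → Fin 3) (ε : Fin d → ℤ)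
    (hε : ∀ i, ε i = 1 ∨ ε i = -1 ∨ ε i = 0) (n : ℕ) (y : ZMod n → Fin 3) (v : Fin d → ZMod n) :
    step f (fun v => y (Q7_L ε n v)) v =
      f (qe ε (y (Q7_L ε n v - 1)) (y (Q7_L ε n v)) (y (Q7_L ε n v + 1))) := by
  unfold step
  congr 1
  funext u
  have h11 : ((1 : ℤ) = -1) = False := by simp
  have h1m : ((-1 : ℤ) = 1) = False := by simp
  match u with
  | none =>
    simp only [qe]
    rw [Q7_add]
    have : (nb (none : Nb d) : Fin d → ZMod n) = 0 := rfl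
    rw [this]
    have h0 : Q7_L ε n 0 = 0 := by
      unfold Q7_L
      simp
    rw [h0, add_zero]
  | some (i, true) =>
    have : (nb (some (i, true) : Nb d) : Fin d → ZMod n) = Pi.single i 1 := rfl
    rw [this]
    show y (Q7_L ε n (v + Pi.single i 1)) = _
    rw [Q7_add, Q7_single, mul_one]
    rcases hε i with h | h | h
    · simp only [qe]
      rw [if_pos h, h]
      simp
    · simp only [qe]
      rw [if_neg (by rw [h]; norm_num), if_pos h, h]
      simp [sub_eq_add_neg]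
    · simp only [qe]
      rw [if_neg (by rw [h]; norm_num), if_neg (by rw [h]; norm_num), h]
      simp
  | some (i, false) =>
    have : (nb (some (i, false) : Nb d) : Fin d → ZMod n) = Pi.single i (-1) := rfl
    rw [this]
    show y (Q7_L ε n (v + Pi.single i (-1))) = _
    rw [Q7_add, Q7_single]
    rcases hε i with h | h | h
    · simp only [qe]
      rw [if_pos h, h]
      simp [sub_eq_add_neg]
    · simp only [qe]
      rw [if_neg (by rw [h]; norm_num), if_pos h, h]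
      simp
    · simp only [qe]
      rw [if_neg (by rw [h]; norm_num), if_neg (by rw [h]; norm_num), h]
      simp

theorem Q7 {d : ℕ} (f : (Nb d → Fin 3) → Fin 3) (hf : NumberConserving f) (ε : Fin d → ℤ)
    (hε : ∀ i, ε i = 1 ∨ ε i = -1 ∨ ε i = 0) (h0 : ∃ i, ε i ≠ 0) (n : ℕ) [NeZero n]
    (y : ZMod n → Fin 3) :
    ∑ s, ((f (qe ε (y (s - 1)) (y s) (y (s + 1))) : Fin 3) : ℕ) = ∑ s, ((y s : Fin 3) : ℕ) := by
  have h1 := hf n (fun v => y (Q7_L ε n v))
  have h2 := Q7_fib ε hε h0 n (fun s => ((f (qe ε (y (s - 1)) (y s) (y (s + 1))) : Fin 3) : ℕ))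
  have h3 := Q7_fib ε hε h0 n (fun s => ((y s : Fin 3) : ℕ))
  have h4 : ∑ v : Fin d → ZMod n, ((step f (fun v => y (Q7_L ε n v)) v : Fin 3) : ℕ) =
      ∑ v : Fin d → ZMod n, ((f (qe ε (y (Q7_L ε n v - 1)) (y (Q7_L ε n v))
        (y (Q7_L ε n v + 1))) : Fin 3) : ℕ) :=
    sum_congr rfl fun v _ => by rw [Q7_step f ε hε n y v]
  rw [h4] at h1
  rw [h1] at h2
  have h5 := h2.symm.trans h3
  exact Nat.eq_of_mul_eq_mul_left Fintype.card_pos h5

end Pool.Agent.Run7.h233.NC
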