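import Mathlib
import Pool.Agent.Run7.h233.NC.Defs

open Finset

namespace Pool.Agent.Run7.h233.NC

lemma Q8_sum_single {d : ℕ} (ε v : Fin d → ℤ) (i : Fin d) (t : ℤ) :
    ∑ j, ε j * (v + (Pi.single i t : Fin d → ℤ)) j = ∑ j, ε j * v j + ε i * t := by
  simp only [Pi.add_apply, mul_add, Finset.sum_add_distrib]
  congr 1
  rw [Finset.sum_eq_single i]
  · rw [Pi.single_eq_same]
  · intro j _ hj
    rw [Pi.single_eq_of_ne hj, mul_zero]
  · intro h
    exact absurd (Finset.mem_univ i) h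

lemma Q8_step {d : ℕ} (f : (Nb d → Fin 3) → Fin 3) (ε : Fin d → ℤ)
    (hε : ∀ i, ε i = 1 ∨ ε i = -1 ∨ ε i = 0) (n : ℕ) (y : ZMod n → Fin 3) (v : Fin d → ℤ) :
    step (R := ℤ) f (fun w => y ((∑ j, ε j * w j : ℤ) : ZMod n)) v =
      f (qe ε (y (((∑ j, ε j * v j : ℤ) : ZMod n) - 1)) (y ((∑ j, ε j * v j : ℤ) : ZMod n))
        (y (((∑ j, ε j * v j : ℤ) : ZMod n) + 1))) := by
  unfold step
  congr 1
  funext u
  rcases u with _ | ⟨i, _ | _⟩
  · simp only [nb, qe, add_zero]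
  · simp only [nb, qe]
    rw [Q8_sum_single]
    rcases hε i with h | h | h
    · rw [h, if_pos rfl]
      congr 1
      push_cast
      ring
    · rw [h, if_neg (by norm_num), if_pos rfl]
      congr 1
      push_cast
      ring
    · rw [h, if_neg (by norm_num), if_neg (by norm_num), zero_mul, add_zero]
  · simp only [nb, qe]
    rw [Q8_sum_single]
    rcases hε i with h | h | h
    · rw [h, if_pos rfl]
      congr 1
      push_cast
      ring
    · rw [h, if_neg (by norm_num), if_pos rfl]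
      congr 1
      push_cast
      ring
    · rw [h, if_neg (by norm_num), if_neg (by norm_num), zero_mul, add_zero]

theorem Q8 {d : ℕ} (f : (Nb d → Fin 3) → Fin 3) (hf : Reversible f) (ε : Fin d → ℤ)
    (hε : ∀ i, ε i = 1 ∨ ε i = -1 ∨ ε i = 0) (h0 : ∃ i, ε i ≠ 0) (n : ℕ) [NeZero n]
    (y y' : ZMod n → Fin 3) (h : ∀ s, f (qe ε (y (s - 1)) (y s) (y (s + 1))) =
      f (qe ε (y' (s - 1)) (y' s) (y' (s + 1)))) : y = y' := by
  have h1 : (fun w : Fin d → ℤ => y ((∑ j, ε j * w j : ℤ) : ZMod n)) =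
      fun w : Fin d → ℤ => y' ((∑ j, ε j * w j : ℤ) : ZMod n) := by
    apply hf.1
    funext v
    rw [Q8_step f ε hε n y v, Q8_step f ε hε n y' v]
    exact h _
  obtain ⟨i, hi⟩ := h0
  have hi2 : ε i * ε i = 1 := by
    rcases hε i with h | h | h
    · rw [h]; norm_num
    · rw [h]; norm_num
    · exact absurd h hi
  funext s
  have h2 := congrFun h1 (0 + (Pi.single i (ε i * (s.val : ℤ)) : Fin d → ℤ))
  simp only [Q8_sum_single] at h2
  have h3 : ((∑ j, ε j * (0 : Fin d → ℤ) j + ε i * (ε i * (s.val : ℤ)) : ℤ) : ZMod n) = s := by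
    rw [← mul_assoc, hi2]
    simp
  rwa [h3] at h2

end Pool.Agent.Run7.h233.NC
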