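import Mathlib
import Pool.Agent.Run7.h233.NC.Defs
import Pool.Agent.Run7.h233.NC.Q1
import Pool.Agent.Run7.h233.NC.Q7
import Pool.Agent.Run7.h233.NC.Q8

set_option autoImplicit false

open Finset

namespace Pool.Agent.Run7.h233.NC

/-- Q9 (piece by helper648; uses Q1, Q7, Q8). -/
theorem Q9 {d : ℕ} (f : (Nb d → Fin 3) → Fin 3) (hf : NumberConserving f) (hr : Reversible f)
    (ε : Fin d → ℤ) (hε : ∀ i, ε i = 1 ∨ ε i = -1 ∨ ε i = 0) (h0 : ∃ i, ε i ≠ 0) :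
    IsProj (fun a b c => f (qe ε a b c)) := by
  have : NeZero (5 : ℕ) := ⟨by norm_num⟩
  have : NeZero (3 : ℕ) := ⟨by norm_num⟩
  have : NeZero (4 : ℕ) := ⟨by norm_num⟩
  exact Q1 _ (fun y => Q7 f hf ε hε h0 5 y) (fun y y' h => Q8 f hr ε hε h0 3 y y' h)
    (fun y y' h => Q8 f hr ε hε h0 4 y y' h)

end Pool.Agent.Run7.h233.NC
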