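import Mathlib
import Pool.Agent.Run7.h233.NC.Defs
import Pool.Agent.Run7.h233.NC.Q4
import Pool.Agent.Run7.h233.NC.Q9

namespace Pool.Agent.Run7.h233.NC

theorem Q11_axis {d : ℕ} (f : (Nb d → Fin 3) → Fin 3) (hf : NumberConserving f)
    (hr : Reversible f) (γ : Nb d) (hγ : γ ≠ none) :
    (∀ a : Fin 3, fz f (pt γ a) = 0) ∨ (∀ a : Fin 3, fz f (pt γ a) = ((a : ℕ) : ℤ)) := by
  rcases γ with _ | ⟨i, s⟩
  · exact absurd rfl hγ
  have hε : ∀ j, (Pi.single i 1 : Fin d → ℤ) j = 1 ∨ (Pi.single i 1 : Fin d → ℤ) j = -1 ∨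
      (Pi.single i 1 : Fin d → ℤ) j = 0 := by
    intro j
    by_cases h : j = i
    · subst h; simp
    · simp [Pi.single_eq_of_ne h]
  have hp := Q9 f hf hr (Pi.single i 1) hε ⟨i, by simp⟩
  cases s with
  | true =>
    have e : ∀ a : Fin 3, pt (some (i, true)) a = qe (Pi.single i 1 : Fin d → ℤ) 0 0 a := by
      intro a
      funext u
      rcases u with _ | ⟨j, t⟩
      · simp [pt, qe]
      · by_cases h : j = i
        · subst h
          cases t <;> simp [pt, qe]
        · cases t <;> simp [pt, qe, Pi.single_eq_of_ne h, h]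
    rcases hp with hp | hp | hp
    · left; intro a; rw [fz, e]; have := hp 0 0 a; simp only at this; rw [this]; rfl
    · left; intro a; rw [fz, e]; have := hp 0 0 a; simp only at this; rw [this]; rfl
    · right; intro a; rw [fz, e]; have := hp 0 0 a; simp only at this; rw [this]
  | false =>
    have e : ∀ a : Fin 3, pt (some (i, false)) a = qe (Pi.single i 1 : Fin d → ℤ) a 0 0 := by
      intro a
      funext u
      rcases u with _ | ⟨j, t⟩
      · simp [pt, qe]
      · by_cases h : j = i
        · subst h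
          cases t <;> simp [pt, qe]
        · cases t <;> simp [pt, qe, Pi.single_eq_of_ne h, h]
    rcases hp with hp | hp | hp
    · right; intro a; rw [fz, e]; have := hp a 0 0; simp only at this; rw [this]
    · left; intro a; rw [fz, e]; have := hp a 0 0; simp only at this; rw [this]; rfl
    · left; intro a; rw [fz, e]; have := hp a 0 0; simp only at this; rw [this]; rfl

theorem Q11 {d : ℕ} (f : (Nb d → Fin 3) → Fin 3) (hf : NumberConserving f) (hr : Reversible f) :
    ∃ u : Nb d, ∀ c a, fz f (pt c a) = if c = u then ((a : ℕ) : ℤ) else 0 := by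
  obtain ⟨-, hsum⟩ := Q4 f hf
  have hnn : ∀ c a, 0 ≤ fz f (pt c a) := fun c a => Int.natCast_nonneg _
  by_cases hex : ∃ γ : Nb d, γ ≠ none ∧ ∀ a : Fin 3, fz f (pt γ a) = ((a : ℕ) : ℤ)
  · obtain ⟨γ, -, hγ⟩ := hex
    refine ⟨γ, fun c a => ?_⟩
    by_cases hc : c = γ
    · subst hc
      rw [if_pos rfl]
      exact hγ a
    · rw [if_neg hc]
      have h1 := hsum a
      rw [← Finset.add_sum_erase _ _ (Finset.mem_univ γ), hγ a] at h1
      have h2 : ∑ x ∈ Finset.univ.erase γ, fz f (pt x a) = 0 := by linarith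
      exact (Finset.sum_eq_zero_iff_of_nonneg (fun x _ => hnn x a)).1 h2 c
        (Finset.mem_erase.2 ⟨hc, Finset.mem_univ c⟩)
  · have h0 : ∀ γ : Nb d, γ ≠ none → ∀ a : Fin 3, fz f (pt γ a) = 0 := by
      intro γ hγ
      rcases Q11_axis f hf hr γ hγ with h | h
      · exact h
      · exact absurd ⟨γ, hγ, h⟩ hex
    refine ⟨none, fun c a => ?_⟩
    by_cases hc : c = none
    · subst hc
      rw [if_pos rfl]
      have h1 := hsum a
      rw [← Finset.add_sum_erase _ _ (Finset.mem_univ (none : Nb d)),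
        Finset.sum_eq_zero (fun x hx => h0 x (Finset.ne_of_mem_erase hx) a), add_zero] at h1
      exact h1
    · rw [if_neg hc]
      exact h0 c hc a

end Pool.Agent.Run7.h233.NC
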