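import Mathlib
import Pool.Agent.Run7.h233.NC.Defs
import Pool.Agent.Run7.h233.NC.Q9
import Pool.Agent.Run7.h233.NC.Q10

open Finset

namespace Pool.Agent.Run7.h233.NC

theorem Q12 {d : ℕ} (f : (Nb d → Fin 3) → Fin 3) (hf : NumberConserving f) (hr : Reversible f)
    (γ : Nb d) (hγ : γ ≠ none) (b c : Fin 3) :
    ∑ β ∈ (Finset.univ.erase γ).erase (neg γ), psi f β γ b c = 0 := by
  rcases γ with _ | ⟨i, s⟩
  · exact absurd rfl hγ
  obtain ⟨ε, hε1, hε2⟩ : ∃ ε : Fin d → ℤ, ε i = (if s then 1 else -1) ∧ ∀ j, j ≠ i → ε j = 0 :=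
    ⟨fun j => if j = i then (if s then 1 else -1) else 0, by simp, fun j hj => by simp [hj]⟩
  have hε : ∀ j, ε j = 1 ∨ ε j = -1 ∨ ε j = 0 := by
    intro j
    by_cases hj : j = i
    · subst hj; rw [hε1]; cases s <;> simp
    · rw [hε2 j hj]; simp
  have h0 : ∃ j, ε j ≠ 0 := ⟨i, by rw [hε1]; cases s <;> simp⟩
  have h := Q10 f hf ε hε (Q9 f hf hr ε hε h0) b c
  have e2 : Finset.univ.filter (fun u : Nb d => qe ε 1 0 2 u = 2) = {some (i, s)} := by
    ext u
    simp only [mem_filter, mem_univ, true_and, mem_singleton]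
    rcases u with _ | ⟨j, t⟩
    · simp [qe]
    · by_cases hj : j = i
      · subst hj; cases s <;> cases t <;> simp [qe, hε1]
      · cases s <;> cases t <;> simp [qe, hε2 j hj, hj]
  have e0 : Finset.univ.filter (fun u : Nb d => qe ε 1 0 2 u = 0) =
      (Finset.univ.erase (some (i, s))).erase (neg (some (i, s))) := by
    ext u
    simp only [mem_filter, mem_univ, true_and, mem_erase, and_true, ne_eq]
    rcases u with _ | ⟨j, t⟩
    · simp [qe, neg]
    · by_cases hj : j = i
      · subst hj; cases s <;> cases t <;> simp [qe, hε1, neg]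
      · cases s <;> cases t <;> simp [qe, hε2 j hj, neg, hj]
  rw [e0, e2] at h
  simpa using h

end Pool.Agent.Run7.h233.NC
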