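import Mathlib
import Pool.Agent.Run7.h233.NC.Defs
import Pool.Agent.Run7.h233.NC.Q4

open Finset

namespace Pool.Agent.Run7.h233.NC

theorem Q5_neg {d : ℕ} (u : Nb d) : (nb (neg u) : Fin d → ZMod 5) = - nb u := by
  rcases u with _ | ⟨i, _ | _⟩
  · show (0 : Fin d → ZMod 5) = - 0
    rw [neg_zero]
  · show (Pi.single i 1 : Fin d → ZMod 5) = - Pi.single i (-1)
    rw [Pi.single_neg, neg_neg]
  · show (Pi.single i (-1) : Fin d → ZMod 5) = - Pi.single i 1
    rw [Pi.single_neg]

theorem Q5_t {d : ℕ} (i j : Fin d) : (nb (some (i, true)) : Fin d → ZMod 5) j = if j = i then 1 else 0 :=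
  Pi.single_apply i 1 j

theorem Q5_f {d : ℕ} (i j : Fin d) : (nb (some (i, false)) : Fin d → ZMod 5) j = if j = i then -1 else 0 :=
  Pi.single_apply i (-1) j

theorem Q5_val {d : ℕ} (u : Nb d) (i : Fin d) : (nb u : Fin d → ZMod 5) i = 0 ∨
    (nb u : Fin d → ZMod 5) i = 1 ∨ (nb u : Fin d → ZMod 5) i = -1 := by
  rcases u with _ | ⟨j, _ | _⟩
  · exact Or.inl rfl
  · rw [Q5_f]
    split_ifs
    · exact Or.inr (Or.inr rfl)
    · exact Or.inl rfl
  · rw [Q5_t]
    split_ifs
    · exact Or.inr (Or.inl rfl)
    · exact Or.inl rfl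

theorem Q5_one {d : ℕ} (u : Nb d) (i : Fin d) (h : (nb u : Fin d → ZMod 5) i = 1) :
    u = some (i, true) := by
  rcases u with _ | ⟨j, _ | _⟩
  · exact absurd h (show ¬ ((0 : ZMod 5) = 1) by decide)
  · rw [Q5_f] at h
    split_ifs at h
    · exact absurd h (by decide)
    · exact absurd h (by decide)
  · rw [Q5_t] at h
    split_ifs at h with e
    · rw [e]
    · exact absurd h (by decide)

theorem Q5_mone {d : ℕ} (u : Nb d) (i : Fin d) (h : (nb u : Fin d → ZMod 5) i = -1) :
    u = some (i, false) := by
  rcases u with _ | ⟨j, _ | _⟩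
  · exact absurd h (show ¬ ((0 : ZMod 5) = -1) by decide)
  · rw [Q5_f] at h
    split_ifs at h with e
    · rw [e]
    · exact absurd h (by decide)
  · rw [Q5_t] at h
    split_ifs at h
    · exact absurd h (by decide)
    · exact absurd h (by decide)

theorem Q5_inj {d : ℕ} {u u' : Nb d} (h : (nb u : Fin d → ZMod 5) = nb u') : u = u' := by
  rcases u with _ | ⟨i, _ | _⟩
  · rcases u' with _ | ⟨j, _ | _⟩
    · rfl
    · have h1 := congrFun h j
      rw [Q5_f, if_pos rfl] at h1
      exact absurd h1 (show ¬ ((0 : ZMod 5) = -1) by decide)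
    · have h1 := congrFun h j
      rw [Q5_t, if_pos rfl] at h1
      exact absurd h1 (show ¬ ((0 : ZMod 5) = 1) by decide)
  · have h1 := congrFun h i
    rw [Q5_f, if_pos rfl] at h1
    exact (Q5_mone u' i h1.symm).symm
  · have h1 := congrFun h i
    rw [Q5_t, if_pos rfl] at h1
    exact (Q5_one u' i h1.symm).symm

theorem Q5_zero {d : ℕ} {u : Nb d} (h : (nb u : Fin d → ZMod 5) = 0) : u = none :=
  Q5_inj (u' := none) h

theorem Q5_nn {d : ℕ} (u : Nb d) : neg (neg u) = u := by
  rcases u with _ | ⟨i, _ | _⟩ <;> rfl

/-- the positions which see both cells -/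
theorem Q5_claim {d : ℕ} {u u' c c' : Nb d} (hc : c ≠ c')
    (h : (nb u : Fin d → ZMod 5) + nb c' = nb u' + nb c) :
    (u = c ∧ u' = c') ∨ (u = neg c' ∧ u' = neg c) := by
  -- the two ends
  have key1 : u = c → (u = c ∧ u' = c') ∨ (u = neg c' ∧ u' = neg c) := by
    intro e
    left
    refine ⟨e, ?_⟩
    rw [e, add_comm] at h
    exact Q5_inj (add_right_cancel h).symm
  have key2 : u' = neg c → (u = c ∧ u' = c') ∨ (u = neg c' ∧ u' = neg c) := by
    intro e
    right
    refine ⟨?_, e⟩
    apply Q5_inj
    rw [e, Q5_neg, neg_add_cancel] at h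
    rw [Q5_neg]
    exact eq_neg_of_add_eq_zero_left h
  have key3 : u' = c' → (u = c ∧ u' = c') ∨ (u = neg c' ∧ u' = neg c) := by
    intro e
    refine key1 (Q5_inj ?_)
    rw [e, add_comm (nb c')] at h
    exact add_right_cancel h
  have key4 : u = neg c' → (u = c ∧ u' = c') ∨ (u = neg c' ∧ u' = neg c) := by
    intro e
    refine key2 (Q5_inj ?_)
    rw [e, Q5_neg, neg_add_cancel] at h
    rw [Q5_neg]
    exact eq_neg_of_add_eq_zero_left h.symm
  rcases c with _ | ⟨i, s⟩
  · rcases c' with _ | ⟨j, t⟩
    · exact absurd rfl hc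
    · have h1 := congrFun h j
      rw [Pi.add_apply, Pi.add_apply] at h1
      have h0 : (nb (none : Nb d) : Fin d → ZMod 5) j = 0 := rfl
      rw [h0] at h1
      cases t
      · rw [Q5_f, if_pos rfl] at h1
        rcases Q5_val u j with e1 | e1 | e1 <;> rcases Q5_val u' j with e2 | e2 | e2 <;>
          rw [e1, e2] at h1
        · exact absurd h1 (by decide)
        · exact absurd h1 (by decide)
        · exact key3 (Q5_mone u' j e2)
        · exact key4 (Q5_one u j e1)
        · exact absurd h1 (by decide)
        · exact absurd h1 (by decide)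
        · exact absurd h1 (by decide)
        · exact absurd h1 (by decide)
        · exact absurd h1 (by decide)
      · rw [Q5_t, if_pos rfl] at h1
        rcases Q5_val u j with e1 | e1 | e1 <;> rcases Q5_val u' j with e2 | e2 | e2 <;>
          rw [e1, e2] at h1
        · exact absurd h1 (by decide)
        · exact key3 (Q5_one u' j e2)
        · exact absurd h1 (by decide)
        · exact absurd h1 (by decide)
        · exact absurd h1 (by decide)
        · exact absurd h1 (by decide)
        · exact key4 (Q5_mone u j e1)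
        · exact absurd h1 (by decide)
        · exact absurd h1 (by decide)
  · have h1 := congrFun h i
    rw [Pi.add_apply, Pi.add_apply] at h1
    cases s
    · rw [Q5_f, if_pos rfl] at h1
      rcases Q5_val c' i with e3 | e3 | e3
      · rw [e3] at h1
        rcases Q5_val u i with e1 | e1 | e1 <;> rcases Q5_val u' i with e2 | e2 | e2 <;>
          rw [e1, e2] at h1
        · exact absurd h1 (by decide)
        · exact key2 (Q5_one u' i e2)
        · exact absurd h1 (by decide)
        · exact absurd h1 (by decide)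
        · exact absurd h1 (by decide)
        · exact absurd h1 (by decide)
        · exact key1 (Q5_mone u i e1)
        · exact absurd h1 (by decide)
        · exact absurd h1 (by decide)
      · rw [e3] at h1
        rcases Q5_val u i with e1 | e1 | e1 <;> rcases Q5_val u' i with e2 | e2 | e2 <;>
          rw [e1, e2] at h1
        · exact absurd h1 (by decide)
        · exact absurd h1 (by decide)
        · exact absurd h1 (by decide)
        · exact absurd h1 (by decide)
        · exact absurd h1 (by decide)
        · exact absurd h1 (by decide)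
        · exact absurd h1 (by decide)
        · exact key1 (Q5_mone u i e1)
        · exact absurd h1 (by decide)
      · exact absurd (Q5_mone c' i e3).symm hc
    · rw [Q5_t, if_pos rfl] at h1
      rcases Q5_val c' i with e3 | e3 | e3
      · rw [e3] at h1
        rcases Q5_val u i with e1 | e1 | e1 <;> rcases Q5_val u' i with e2 | e2 | e2 <;>
          rw [e1, e2] at h1
        · exact absurd h1 (by decide)
        · exact absurd h1 (by decide)
        · exact key2 (Q5_mone u' i e2)
        · exact key1 (Q5_one u i e1)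
        · exact absurd h1 (by decide)
        · exact absurd h1 (by decide)
        · exact absurd h1 (by decide)
        · exact absurd h1 (by decide)
        · exact absurd h1 (by decide)
      · exact absurd (Q5_one c' i e3).symm hc
      · rw [e3] at h1
        rcases Q5_val u i with e1 | e1 | e1 <;> rcases Q5_val u' i with e2 | e2 | e2 <;>
          rw [e1, e2] at h1
        · exact absurd h1 (by decide)
        · exact absurd h1 (by decide)
        · exact absurd h1 (by decide)
        · exact absurd h1 (by decide)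
        · exact absurd h1 (by decide)
        · exact key1 (Q5_one u i e1)
        · exact absurd h1 (by decide)
        · exact absurd h1 (by decide)
        · exact absurd h1 (by decide)

theorem Q5 {d : ℕ} (f : (Nb d → Fin 3) → Fin 3) (hf : NumberConserving f) (c c' : Nb d)
    (hc : c ≠ c') (a b : Fin 3) :
    (c' ≠ neg c → psi f c c' a b + psi f (neg c') (neg c) a b = 0) ∧
    (c' = neg c → psi f c c' a b = 0) := by
  classical
  obtain ⟨hz, hs⟩ := Q4 f hf
  obtain ⟨x, hx⟩ : ∃ x : (Fin d → ZMod 5) → Fin 3,
      x = fun v => if v = nb c then a else if v = nb c' then b else 0 := ⟨_, rfl⟩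
  have hnc : (nb c : Fin d → ZMod 5) ≠ nb c' := fun e => hc (Q5_inj e)
  have h1 := hf 5 x
  have h2 : ∑ v, fz f (fun u => x (v + nb u)) = ((a : ℕ) : ℤ) + ((b : ℕ) : ℤ) := by
    have h3 : ∑ v, fz f (fun u => x (v + nb u)) = ((∑ v, ((step f x v : Fin 3) : ℕ) : ℕ) : ℤ) := by
      push_cast
      rfl
    have h4 : ∑ v, ((x v : Fin 3) : ℕ) = (a : ℕ) + (b : ℕ) := by
      have h5 : ∀ v, ((x v : Fin 3) : ℕ) = (if v = nb c then (a : ℕ) else 0) +
          (if v = nb c' then (b : ℕ) else 0) := by
        intro v
        rw [hx]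
        show (((if v = nb c then a else if v = nb c' then b else 0 : Fin 3)) : ℕ) = _
        by_cases e1 : v = nb c
        · rw [if_pos e1, if_pos e1, if_neg (fun e2 => hnc (e1.symm.trans e2)), add_zero]
        · rw [if_neg e1, if_neg e1, zero_add]
          split_ifs
          · rfl
          · rfl
      rw [Finset.sum_congr rfl fun v _ => h5 v, Finset.sum_add_distrib, Finset.sum_ite_eq',
        Finset.sum_ite_eq', if_pos (Finset.mem_univ _), if_pos (Finset.mem_univ _)]
    rw [h3, h1, h4]
    push_cast
    rfl
  obtain ⟨G, hG⟩ : ∃ G : (Fin d → ZMod 5) → ℤ, G = fun v => fz f (fun u => x (v + nb u)) -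
      (∑ u, if v + nb u = nb c then fz f (pt u a) else 0) -
      (∑ u, if v + nb u = nb c' then fz f (pt u b) else 0) := ⟨_, rfl⟩
  have hsw : ∀ (w : Fin d → ZMod 5) (F : Nb d → ℤ),
      ∑ v : Fin d → ZMod 5, ∑ u, (if v + nb u = w then F u else 0) = ∑ u, F u := by
    intro w F
    rw [Finset.sum_comm]
    refine Finset.sum_congr rfl fun u _ => ?_
    have h3 : ∀ v : Fin d → ZMod 5, (if v + nb u = w then F u else 0) =
        if v = w - nb u then F u else 0 := by
      intro v
      simp only [eq_sub_iff_add_eq]
    rw [Finset.sum_congr rfl fun v _ => h3 v, Finset.sum_ite_eq', if_pos (Finset.mem_univ _)]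
  have hGs : ∑ v, G v = 0 := by
    rw [hG]
    simp only [Finset.sum_sub_distrib]
    rw [hsw, hsw, h2, hs, hs]
    ring
  -- the value when both cells are seen
  have hboth : ∀ (v : Fin d → ZMod 5) (u1 u2 : Nb d), v + nb u1 = nb c → v + nb u2 = nb c' →
      G v = psi f u1 u2 a b := by
    intro v u1 u2 e1 e2
    have i1 : ∀ u, v + nb u = nb c ↔ u = u1 := fun u =>
      ⟨fun e => Q5_inj (add_left_cancel (e.trans e1.symm)), fun e => by rw [e, e1]⟩
    have i2 : ∀ u, v + nb u = nb c' ↔ u = u2 := fun u =>
      ⟨fun e => Q5_inj (add_left_cancel (e.trans e2.symm)), fun e => by rw [e, e2]⟩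
    rw [hG]
    simp only [i1, i2]
    rw [Finset.sum_ite_eq', Finset.sum_ite_eq', if_pos (Finset.mem_univ _),
      if_pos (Finset.mem_univ _)]
    have h3 : (fun u => x (v + nb u)) = pr u1 u2 a b := by
      funext u
      rw [hx]
      simp only [i1, i2]
      rfl
    rw [h3]
    rfl
  have hnone : ∀ v : Fin d → ZMod 5, v ≠ 0 → v ≠ nb c + nb c' → G v = 0 := by
    intro v hv0 hv1
    by_cases h3 : ∃ u1, v + nb u1 = nb c
    · obtain ⟨u1, e1⟩ := h3
      have i1 : ∀ u, v + nb u = nb c ↔ u = u1 := fun u =>
        ⟨fun e => Q5_inj (add_left_cancel (e.trans e1.symm)), fun e => by rw [e, e1]⟩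
      by_cases h4 : ∃ u2, v + nb u2 = nb c'
      · exfalso
        obtain ⟨u2, e2⟩ := h4
        have h5 : (nb u1 : Fin d → ZMod 5) + nb c' = nb u2 + nb c := by
          rw [← e1, ← e2]
          ring
        rcases Q5_claim hc h5 with ⟨e3, _⟩ | ⟨e3, _⟩
        · rw [e3] at e1
          exact hv0 (by simpa using e1)
        · rw [e3, Q5_neg] at e1
          apply hv1
          rw [← e1]
          ring
      · have i2 : ∀ u, ¬ (v + nb u = nb c') := fun u e => h4 ⟨u, e⟩
        rw [hG]
        simp only [i1, i2, if_false, Finset.sum_const_zero]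
        rw [Finset.sum_ite_eq', if_pos (Finset.mem_univ _)]
        have h5 : (fun u => x (v + nb u)) = pt u1 a := by
          funext u
          rw [hx]
          simp only [i1, i2, if_false]
          rfl
        rw [h5]
        ring
    · have i1 : ∀ u, ¬ (v + nb u = nb c) := fun u e => h3 ⟨u, e⟩
      by_cases h4 : ∃ u2, v + nb u2 = nb c'
      · obtain ⟨u2, e2⟩ := h4
        have i2 : ∀ u, v + nb u = nb c' ↔ u = u2 := fun u =>
          ⟨fun e => Q5_inj (add_left_cancel (e.trans e2.symm)), fun e => by rw [e, e2]⟩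
        rw [hG]
        simp only [i1, i2, if_false, Finset.sum_const_zero]
        rw [Finset.sum_ite_eq', if_pos (Finset.mem_univ _)]
        have h5 : (fun u => x (v + nb u)) = pt u2 b := by
          funext u
          rw [hx]
          simp only [i1, i2, if_false]
          rfl
        rw [h5]
        ring
      · have i2 : ∀ u, ¬ (v + nb u = nb c') := fun u e => h4 ⟨u, e⟩
        rw [hG]
        simp only [i1, i2, if_false, Finset.sum_const_zero]
        have h5 : (fun u : Nb d => x (v + nb u)) = fun _ => 0 := by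
          funext u
          rw [hx]
          simp only [i1, i2, if_false]
        rw [h5]
        show ((((f fun _ => 0 : Fin 3)) : ℕ) : ℤ) - 0 - 0 = 0
        rw [hz]
        rfl
  have hG0 : G 0 = psi f c c' a b := hboth 0 c c' (zero_add _) (zero_add _)
  constructor
  · intro hcc
    have hw : (0 : Fin d → ZMod 5) ≠ nb c + nb c' := by
      intro e
      apply hcc
      apply Q5_inj
      rw [Q5_neg]
      exact eq_neg_of_add_eq_zero_right e.symm
    have hGw : G (nb c + nb c') = psi f (neg c') (neg c) a b :=
      hboth _ (neg c') (neg c) (by rw [Q5_neg]; ring) (by rw [Q5_neg]; ring)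
    rw [← hG0, ← hGw, ← hGs]
    rw [← Finset.sum_pair hw]
    refine Finset.sum_subset (Finset.subset_univ _) fun v _ hv => ?_
    rw [Finset.mem_insert, Finset.mem_singleton, not_or] at hv
    exact hnone v hv.1 hv.2
  · intro hcc
    have hw : (nb c + nb c' : Fin d → ZMod 5) = 0 := by
      rw [hcc, Q5_neg]
      ring
    rw [← hG0, ← hGs]
    rw [← Finset.sum_singleton G (0 : Fin d → ZMod 5)]
    refine Finset.sum_subset (Finset.subset_univ _) fun v _ hv => ?_
    rw [Finset.mem_singleton] at hv
    exact hnone v hv (by rw [hw]; exact hv)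

end Pool.Agent.Run7.h233.NC
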