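import Mathlib
import Pool.Agent.Run7.h233.NC.Defs
import Pool.Agent.Run7.h233.NC.Q5
import Pool.Agent.Run7.h233.NC.Q9
import Pool.Agent.Run7.h233.NC.Q10
import Pool.Agent.Run7.h233.NC.Q12

open Finset

namespace Pool.Agent.Run7.h233.NC

/-- the sign of an arm -/
def Q15_sg (s : Bool) : ℤ := if s then 1 else -1

/-- the direction `γ + δ` -/
def Q15_eps {d : ℕ} (i j : Fin d) (s t : Bool) (k : Fin d) : ℤ :=
  if k = i then Q15_sg s else if k = j then Q15_sg t else 0

theorem Q15_two {d : ℕ} (i j : Fin d) (s t : Bool) (hij : i ≠ j) (u : Nb d) :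
    qe (Q15_eps i j s t) 1 0 2 u = 2 ↔ u = some (i, s) ∨ u = some (j, t) := by
  rcases u with _ | ⟨k, r⟩
  · simp [qe]
  · by_cases hk : k = i
    · subst hk
      cases s <;> cases r <;> simp [qe, Q15_eps, Q15_sg, hij]
    · by_cases hk' : k = j
      · subst hk'
        cases t <;> cases r <;> simp [qe, Q15_eps, Q15_sg, hk]
      · cases r <;> simp [qe, Q15_eps, hk, hk']

theorem Q15_zero {d : ℕ} (i j : Fin d) (s t : Bool) (hij : i ≠ j) (u : Nb d) :
    qe (Q15_eps i j s t) 1 0 2 u = 0 ↔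
      u ≠ some (i, s) ∧ u ≠ some (i, !s) ∧ u ≠ some (j, t) ∧ u ≠ some (j, !t) := by
  rcases u with _ | ⟨k, r⟩
  · simp [qe]
  · by_cases hk : k = i
    · subst hk
      cases s <;> cases r <;> simp [qe, Q15_eps, Q15_sg, hij]
    · by_cases hk' : k = j
      · subst hk'
        cases t <;> cases r <;> simp [qe, Q15_eps, Q15_sg, hk]
      · cases r <;> simp [qe, Q15_eps, hk, hk']

theorem Q15_sum {d : ℕ} (i j : Fin d) (s t : Bool) (hij : i ≠ j) (g : Nb d → ℤ) :
    ∑ β ∈ (Finset.univ.erase (some (i, s) : Nb d)).erase (some (i, !s)), g β =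
      g (some (j, t)) + (g (some (j, !t)) +
      ∑ β ∈ Finset.univ.filter (fun u : Nb d => qe (Q15_eps i j s t) 1 0 2 u = 0), g β) := by
  classical
  have h1 : (Finset.univ.erase (some (i, s) : Nb d)).erase (some (i, !s)) =
      insert (some (j, t)) (insert (some (j, !t))
        (Finset.univ.filter (fun u : Nb d => qe (Q15_eps i j s t) 1 0 2 u = 0))) := by
    ext u
    simp only [mem_erase, mem_univ, and_true, mem_insert, mem_filter, true_and,
      Q15_zero i j s t hij]
    have e1 : (some (j, t) : Nb d) ≠ some (i, s) := by simp [Ne.symm hij]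
    have e2 : (some (j, t) : Nb d) ≠ some (i, !s) := by simp [Ne.symm hij]
    have e3 : (some (j, !t) : Nb d) ≠ some (i, s) := by simp [Ne.symm hij]
    have e4 : (some (j, !t) : Nb d) ≠ some (i, !s) := by simp [Ne.symm hij]
    constructor
    · rintro ⟨h2, h3⟩
      by_cases h4 : u = some (j, t)
      · exact Or.inl h4
      · by_cases h5 : u = some (j, !t)
        · exact Or.inr (Or.inl h5)
        · exact Or.inr (Or.inr ⟨h3, h2, h4, h5⟩)
    · rintro (rfl | rfl | h)
      · exact ⟨e2, e1⟩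
      · exact ⟨e4, e3⟩
      · exact ⟨h.2.1, h.1⟩
  rw [h1, sum_insert, sum_insert]
  · simp [Q15_zero i j s t hij]
  · simp [Q15_zero i j s t hij]

theorem Q15_comm {d : ℕ} (f : (Nb d → Fin 3) → Fin 3) (γ δ : Nb d) (h : γ ≠ δ) (b c : Fin 3) :
    psi f δ γ b c = psi f γ δ c b := by
  have h1 : pr δ γ b c = pr γ δ c b := by
    funext u
    unfold pr
    by_cases hu : u = δ
    · subst hu; simp [Ne.symm h]
    · simp [hu]
  unfold psi
  rw [h1]
  ring

/-- Q15: antisymmetry of the interactions of arms of different axes. -/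
theorem Q15 {d : ℕ} (f : (Nb d → Fin 3) → Fin 3) (hf : NumberConserving f) (hr : Reversible f)
    (γ δ : Nb d) (hγ : γ ≠ none) (hδ : δ ≠ none) (h1 : γ ≠ δ) (h2 : γ ≠ neg δ) (b c : Fin 3) :
    psi f γ δ b c + psi f γ δ c b = 0 := by
  classical
  rcases γ with _ | ⟨i, s⟩
  · exact absurd rfl hγ
  rcases δ with _ | ⟨j, t⟩
  · exact absurd rfl hδ
  have hij : i ≠ j := by
    rintro rfl
    by_cases hst : s = t
    · exact h1 (by rw [hst])
    · exact h2 (by
        have : s = !t := by cases s <;> cases t <;> simp_all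
        rw [this]; rfl)
  have hε : ∀ k, Q15_eps i j s t k = 1 ∨ Q15_eps i j s t k = -1 ∨ Q15_eps i j s t k = 0 := by
    intro k
    unfold Q15_eps Q15_sg
    split_ifs <;> simp
  have h0 : ∃ k, Q15_eps i j s t k ≠ 0 := by
    refine ⟨i, ?_⟩
    unfold Q15_eps Q15_sg
    cases s <;> simp
  have e10 := Q10 f hf _ hε (Q9 f hf hr _ hε h0) b c
  have hfil : (Finset.univ.filter (fun u : Nb d => qe (Q15_eps i j s t) 1 0 2 u = 2)) =
      {some (i, s), some (j, t)} := by
    ext u
    simp only [mem_filter, mem_univ, true_and, Q15_two i j s t hij, mem_insert, mem_singleton]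
  rw [hfil] at e10
  have hne : (some (i, s) : Nb d) ≠ some (j, t) := h1
  simp only [sum_pair hne, sum_add_distrib] at e10
  have e12 := Q12 f hf hr (some (i, s)) hγ b c
  have e12' := Q12 f hf hr (some (j, t)) hδ b c
  have n1 : neg (some (i, s) : Nb d) = some (i, !s) := rfl
  have n2 : neg (some (j, t) : Nb d) = some (j, !t) := rfl
  rw [n1, Q15_sum i j s t hij (fun β => psi f β (some (i, s)) b c)] at e12
  rw [n2, Q15_sum j i t s (Ne.symm hij) (fun β => psi f β (some (j, t)) b c)] at e12'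
  have hfil2 : (Finset.univ.filter (fun u : Nb d => qe (Q15_eps j i t s) 1 0 2 u = 0)) =
      (Finset.univ.filter (fun u : Nb d => qe (Q15_eps i j s t) 1 0 2 u = 0)) := by
    ext u
    simp only [mem_filter, mem_univ, true_and, Q15_zero i j s t hij,
      Q15_zero j i t s (Ne.symm hij)]
    tauto
  rw [hfil2] at e12'
  have e5 := (Q5 f hf (some (j, !t)) (some (i, s)) (by simp [Ne.symm hij]) b c).1 (by
    simp [neg, hij])
  have n3 : neg (some (j, !t) : Nb d) = some (j, t) := by simp [neg]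
  rw [n1, n3] at e5
  have e6 := Q15_comm f (some (i, s)) (some (j, t)) hne b c
  linarith

end Pool.Agent.Run7.h233.NC
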