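import Mathlib
import Pool.Agent.Run7.h233.NC.Defs
import Pool.Agent.Run7.h233.NC.Q5
import Pool.Agent.Run7.h233.NC.Q11
import Pool.Agent.Run7.h233.NC.Q12
import Pool.Agent.Run7.h233.NC.Q15

open Finset

namespace Pool.Agent.Run7.h233.NC

theorem neg_neg_h44 {d : ℕ} (c : Nb d) : neg (neg c) = c := by
  rcases c with _ | ⟨i, s⟩
  · rfl
  · simp [neg]

theorem neg_ne_self_h44 {d : ℕ} (c : Nb d) (h : c ≠ none) : neg c ≠ c := by
  rcases c with _ | ⟨i, s⟩
  · exact absurd rfl h
  · simp [neg]

theorem neg_ne_none_h44 {d : ℕ} (c : Nb d) (h : c ≠ none) : neg c ≠ none := by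
  rcases c with _ | ⟨i, s⟩
  · exact absurd rfl h
  · simp [neg]

theorem psi_symm_h44 {d : ℕ} (f : (Nb d → Fin 3) → Fin 3) (c c' : Nb d) (h : c ≠ c') (a b : Fin 3) :
    psi f c c' a b = psi f c' c b a := by
  have : pr c c' a b = pr c' c b a := by
    funext u
    unfold pr
    by_cases h1 : u = c
    · subst h1; simp [h]
    · by_cases h2 : u = c'
      · subst h2; simp [h1]
      · simp [h1, h2]
  unfold psi
  rw [this]; ring

theorem Q13 {d : ℕ} (f : (Nb d → Fin 3) → Fin 3) (hf : NumberConserving f) (hr : Reversible f)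
    (c c' : Nb d) (hc : c ≠ c') (a b : Fin 3) : psi f c c' a b = 0 := by
  obtain ⟨u, hu⟩ := Q11 f hf hr
  have hfz : ∀ q, 0 ≤ fz f q := fun q => by unfold fz; positivity
  -- interactions of arms of different axes, none of them the distinguished cell
  have key1 : ∀ γ δ : Nb d, γ ≠ none → δ ≠ none → γ ≠ δ → γ ≠ neg δ → γ ≠ u → δ ≠ u →
      ∀ b c : Fin 3, psi f γ δ b c = 0 := by
    intro γ δ hγ hδ h1 h2 hγu hδu b c
    have hnn : ∀ b c : Fin 3, 0 ≤ psi f γ δ b c := by
      intro b c
      unfold psi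
      rw [hu γ b, hu δ c, if_neg hγu, if_neg hδu]
      have := hfz (pr γ δ b c)
      linarith
    have h3 := Q15 f hf hr γ δ hγ hδ h1 h2 b c
    have h4 := hnn b c
    have h5 := hnn c b
    linarith
  have key2 : ∀ γ δ : Nb d, γ ≠ none → δ ≠ none → γ ≠ δ → ∀ b c : Fin 3, psi f γ δ b c = 0 := by
    intro γ δ hγ hδ h1 b c
    by_cases h2 : δ = neg γ
    · exact (Q5 f hf γ δ h1 b c).2 h2
    · have h2' : γ ≠ neg δ := fun h => h2 (by rw [h, neg_neg_h44])
      by_cases hu1 : γ ≠ u ∧ δ ≠ u
      · exact key1 γ δ hγ hδ h1 h2' hu1.1 hu1.2 b c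
      · have h3 := (Q5 f hf γ δ h1 b c).1 h2
        have h4 : psi f (neg δ) (neg γ) b c = 0 := by
          refine key1 (neg δ) (neg γ) (neg_ne_none_h44 δ hδ) (neg_ne_none_h44 γ hγ) ?_ ?_ ?_ ?_ b c
          · intro h
            apply h1
            rw [← neg_neg_h44 γ, ← h, neg_neg_h44]
          · rw [neg_neg_h44]
            exact fun h => h2' h.symm
          · intro h
            apply hu1
            refine ⟨fun h' => h2' (h'.trans h.symm), fun h' => neg_ne_self_h44 δ hδ (h.trans h'.symm)⟩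
          · intro h
            apply hu1
            refine ⟨fun h' => neg_ne_self_h44 γ hγ (h.trans h'.symm), fun h' => h2 (h'.trans h.symm)⟩
        linarith
  have key3 : ∀ γ : Nb d, γ ≠ none → ∀ b c : Fin 3, psi f none γ b c = 0 := by
    intro γ hγ b c
    have h := Q12 f hf hr γ hγ b c
    rw [Finset.sum_eq_single (none : Nb d)] at h
    · exact h
    · intro β hβ hβn
      have h1 : β ≠ γ := by
        have := (Finset.mem_erase.1 (Finset.mem_erase.1 hβ).2).1
        exact this
      exact key2 β γ hβn hγ h1 b c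
    · intro h1
      exfalso
      apply h1
      rw [Finset.mem_erase, Finset.mem_erase]
      exact ⟨fun h2 => neg_ne_none_h44 γ hγ h2.symm, fun h2 => hγ h2.symm, Finset.mem_univ _⟩
  by_cases h1 : c = none
  · subst h1
    exact key3 c' (fun h => hc h.symm) a b
  · by_cases h2 : c' = none
    · subst h2
      rw [psi_symm_h44 f c none hc a b]
      exact key3 c h1 b a
    · exact key2 c c' h1 h2 hc a b

end Pool.Agent.Run7.h233.NC
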