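import Mathlib
import Pool.Agent.Run7.h233.NC.Defs
import Pool.Agent.Run7.h233.NC.Q6
import Pool.Agent.Run7.h233.NC.Q11
import Pool.Agent.Run7.h233.NC.Q13

set_option autoImplicit false

open Finset

namespace Pool.Agent.Run7.h233.NC

/-- Q14 (helper354). -/
theorem Q14 {d : ℕ} (f : (Nb d → Fin 3) → Fin 3) (hf : NumberConserving f) (hr : Reversible f) :
    IsTrivial f := by
  obtain ⟨u, hu⟩ := Q11 f hf hr
  refine ⟨u, fun x v => ?_⟩
  have key : ∀ q : Nb d → Fin 3, f q = q u := by
    intro q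
    have h := Q6 f hf q
    have h1 : ∑ c, fz f (pt c (q c)) = (((q u : Fin 3) : ℕ) : ℤ) := by
      simp only [hu]
      rw [Finset.sum_ite_eq' Finset.univ u (fun c => (((q c : Fin 3) : ℕ) : ℤ)),
        if_pos (Finset.mem_univ _)]
    have h2 : ∑ c, ∑ c' ∈ Finset.univ.erase c, psi f c c' (q c) (q c') = 0 := by
      refine Finset.sum_eq_zero fun c _ => Finset.sum_eq_zero fun c' hc' => ?_
      exact Q13 f hf hr c c' (Finset.ne_of_mem_erase hc').symm _ _
    rw [h1, h2, add_zero] at h
    have h3 : fz f q = (((q u : Fin 3) : ℕ) : ℤ) := by linarith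
    unfold fz at h3
    exact Fin.ext (by exact_mod_cast h3)
  exact key _

end Pool.Agent.Run7.h233.NC
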